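import Pool.Agent.K1H73.QrtLang
import Pool.Agent.Helper178.GramLfp

set_option linter.unusedVariables false
set_option linter.unusedSimpArgs false

namespace Pool.Agent.K1H73.Qrt

open Symbol Pool.Agent.Helper178.Gram

/-- Nonterminals. -/
inductive NT
  | Z | A | T | U | V | O | P | F1 | F2 | F3
  deriving DecidableEq

/-- The rules. -/
def rl : List (ContextFreeRule Sg NT) := [
  ⟨.Z, [nonterminal .T]⟩,
  ⟨.Z, [nonterminal .A, terminal .x, nonterminal .F1, nonterminal .A]⟩,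
  ⟨.Z, [nonterminal .A, nonterminal .F2, terminal .y, nonterminal .A]⟩,
  ⟨.Z, [nonterminal .A, terminal .e, nonterminal .F3, nonterminal .A]⟩,
  ⟨.A, []⟩,
  ⟨.A, [terminal .x, nonterminal .A]⟩,
  ⟨.A, [terminal .y, nonterminal .A]⟩,
  ⟨.A, [terminal .a, nonterminal .A]⟩,
  ⟨.A, [terminal .b, nonterminal .A]⟩,
  ⟨.A, [terminal .d, nonterminal .A]⟩,
  ⟨.A, [terminal .e, nonterminal .A]⟩,
  ⟨.A, [terminal .o, nonterminal .A]⟩,
  ⟨.A, [terminal .p, nonterminal .A]⟩,
  ⟨.T, [terminal .x, nonterminal .U, terminal .y]⟩,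
  ⟨.U, [terminal .a, nonterminal .U, terminal .b]⟩,
  ⟨.U, [terminal .d, nonterminal .V, terminal .e]⟩,
  ⟨.V, [terminal .o, nonterminal .V, terminal .p]⟩,
  ⟨.V, []⟩,
  ⟨.V, [nonterminal .T, nonterminal .T, nonterminal .T]⟩,
  ⟨.O, []⟩,
  ⟨.O, [terminal .o, nonterminal .O]⟩,
  ⟨.P, []⟩,
  ⟨.P, [terminal .p, nonterminal .P]⟩,
  ⟨.F1, [terminal .d, nonterminal .O, terminal .x]⟩,
  ⟨.F1, [nonterminal .F1, terminal .a]⟩,
  ⟨.F1, [terminal .a, nonterminal .F1, terminal .a]⟩,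
  ⟨.F1, [terminal .a, terminal .a, nonterminal .F1, terminal .a]⟩,
  ⟨.F2, [terminal .y, nonterminal .P, terminal .e]⟩,
  ⟨.F2, [terminal .b, nonterminal .F2]⟩,
  ⟨.F2, [terminal .b, nonterminal .F2, terminal .b]⟩,
  ⟨.F2, [terminal .b, nonterminal .F2, terminal .b, terminal .b]⟩,
  ⟨.F3, [terminal .y, terminal .x, terminal .a, terminal .a]⟩,
  ⟨.F3, [nonterminal .F3, terminal .a]⟩,
  ⟨.F3, [terminal .b, nonterminal .F3, terminal .a, terminal .a]⟩]

/-- The grammar. -/
def gr : ContextFreeGrammar Sg where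
  NT := NT
  initial := NT.Z
  rules := rl.toFinset

theorem mem_gr (r : ContextFreeRule Sg NT) : r ∈ gr.rules ↔ r ∈ rl := by
  show r ∈ rl.toFinset ↔ _
  exact List.mem_toFinset

/-- Contents of a vertex: nothing or three trees. -/
def Ch (s : List Sg) : Prop := s = [] ∨ ∃ t1 t2 t3 : Tr, s = t1.word ++ (t2.word ++ t3.word)

/-- The interpretation. -/
def In : NT → List Sg → Prop
  | .Z, w => w ∈ LL
  | .A, _ => True
  | .T, w => ∃ t : Tr, w = t.word
  | .U, w => ∃ l c s, Ch s ∧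
      w = rep l .a ++ Sg.d :: (rep c .o ++ (s ++ (rep c .p ++ Sg.e :: rep l .b)))
  | .V, w => ∃ c s, Ch s ∧ w = rep c .o ++ (s ++ rep c .p)
  | .O, w => ∃ c, w = rep c .o
  | .P, w => ∃ c, w = rep c .p
  | .F1, w => ∃ l c m, l ≤ 2 * m ∧ w = rep l .a ++ Sg.d :: (rep c .o ++ Sg.x :: rep m .a)
  | .F2, w => ∃ l c m, l ≤ 2 * m ∧ w = rep m .b ++ Sg.y :: (rep c .p ++ Sg.e :: rep l .b)
  | .F3, w => ∃ m h, 2 * m + 2 ≤ h ∧ w = rep m .b ++ Sg.y :: Sg.x :: rep h .a

theorem repl_comm (n : ℕ) (s : Sg) (r : List Sg) :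
    List.replicate n s ++ s :: r = s :: (List.replicate n s ++ r) := by
  induction n with
  | zero => rfl
  | succ n ih => rw [List.replicate_succ, List.cons_append, ih, List.cons_append]

theorem repl_comm' (n : ℕ) (s : Sg) :
    List.replicate n s ++ [s] = s :: List.replicate n s := by
  have := repl_comm n s []
  rwa [List.append_nil] at this

theorem In_closed : ∀ r ∈ rl, ∀ w, Yl In r.output w → In r.input w := by
  intro r hr
  simp only [rl, List.mem_cons, List.not_mem_nil, or_false] at hr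
  rcases hr with rfl | rfl | rfl | rfl | rfl | rfl | rfl | rfl | rfl | rfl | rfl | rfl | rfl |
    rfl | rfl | rfl | rfl | rfl | rfl | rfl | rfl | rfl | rfl | rfl | rfl | rfl | rfl | rfl | rfl |
    rfl | rfl | rfl | rfl | rfl
  · -- Z → T
    rintro _ ⟨w1, _, rfl, h, rfl⟩
    rw [List.append_nil]
    exact Or.inl h
  · -- Z → A x F1 A
    rintro _ ⟨u, _, rfl, _, _, rfl, w1, _, rfl, ⟨l, c, m, h, rfl⟩, v, _, rfl, _, rfl⟩
    refine Or.inr (Or.inl ⟨u, v, l, c, m, h, ?_⟩)
    simp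
  · -- Z → A F2 y A
    rintro _ ⟨u, _, rfl, _, w1, _, rfl, ⟨l, c, m, h, rfl⟩, _, rfl, v, _, rfl, _, rfl⟩
    refine Or.inr (Or.inr (Or.inl ⟨u, v, l, c, m, h, ?_⟩))
    simp
  · -- Z → A e F3 A
    rintro _ ⟨u, _, rfl, _, _, rfl, w1, _, rfl, ⟨m, h, hh, rfl⟩, v, _, rfl, _, rfl⟩
    refine Or.inr (Or.inr (Or.inr ⟨u, v, m, h, hh, ?_⟩))
    simp
  · intro _ _; trivial
  · intro _ _; trivial
  · intro _ _; trivial
  · intro _ _; trivial
  · intro _ _; trivial
  · intro _ _; trivial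
  · intro _ _; trivial
  · intro _ _; trivial
  · intro _ _; trivial
  · -- T → x U y
    rintro _ ⟨_, rfl, _, _, rfl, ⟨l, c, s, hs, rfl⟩, _, rfl, rfl⟩
    rcases hs with rfl | ⟨t1, t2, t3, rfl⟩
    · refine ⟨.leaf c l, ?_⟩
      simp [Tr.word, opn, cls]
    · refine ⟨.node c l t1 t2 t3, ?_⟩
      simp [Tr.word, opn, cls]
  · -- U → a U b
    rintro _ ⟨_, rfl, _, _, rfl, ⟨l, c, s, hs, rfl⟩, _, rfl, rfl⟩
    refine ⟨l + 1, c, s, hs, ?_⟩
    simp [List.replicate_succ, repl_comm']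
  · -- U → d V e
    rintro _ ⟨_, rfl, _, _, rfl, ⟨c, s, hs, rfl⟩, _, rfl, rfl⟩
    refine ⟨0, c, s, hs, ?_⟩
    simp
  · -- V → o V p
    rintro _ ⟨_, rfl, _, _, rfl, ⟨c, s, hs, rfl⟩, _, rfl, rfl⟩
    refine ⟨c + 1, s, hs, ?_⟩
    simp [List.replicate_succ, repl_comm']
  · -- V → ε
    rintro _ rfl
    exact ⟨0, [], Or.inl rfl, by simp⟩
  · -- V → T T T
    rintro _ ⟨_, _, rfl, ⟨t1, rfl⟩, _, _, rfl, ⟨t2, rfl⟩, _, _, rfl, ⟨t3, rfl⟩, rfl⟩
    exact ⟨0, _, Or.inr ⟨t1, t2, t3, rfl⟩, by simp⟩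
  · rintro _ rfl
    exact ⟨0, rfl⟩
  · rintro _ ⟨_, rfl, _, _, rfl, ⟨c, rfl⟩, rfl⟩
    exact ⟨c + 1, by simp [List.replicate_succ]⟩
  · rintro _ rfl
    exact ⟨0, rfl⟩
  · rintro _ ⟨_, rfl, _, _, rfl, ⟨c, rfl⟩, rfl⟩
    exact ⟨c + 1, by simp [List.replicate_succ]⟩
  · rintro _ ⟨_, rfl, _, _, rfl, ⟨c, rfl⟩, _, rfl, rfl⟩
    exact ⟨0, c, 0, le_refl _, by simp⟩
  · rintro _ ⟨_, _, rfl, ⟨l, c, m, h, rfl⟩, _, rfl, rfl⟩
    exact ⟨l, c, m + 1, by omega, by simp [List.replicate_succ, repl_comm']⟩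
  · rintro _ ⟨_, rfl, _, _, rfl, ⟨l, c, m, h, rfl⟩, _, rfl, rfl⟩
    exact ⟨l + 1, c, m + 1, by omega, by simp [List.replicate_succ, repl_comm']⟩
  · rintro _ ⟨_, rfl, _, rfl, _, _, rfl, ⟨l, c, m, h, rfl⟩, _, rfl, rfl⟩
    exact ⟨l + 1 + 1, c, m + 1, by omega, by simp [List.replicate_succ, repl_comm']⟩
  · rintro _ ⟨_, rfl, _, _, rfl, ⟨c, rfl⟩, _, rfl, rfl⟩
    exact ⟨0, c, 0, le_refl _, by simp⟩
  · rintro _ ⟨_, rfl, _, _, rfl, ⟨l, c, m, h, rfl⟩, rfl⟩
    exact ⟨l, c, m + 1, by omega, by simp [List.replicate_succ]⟩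
  · rintro _ ⟨_, rfl, _, _, rfl, ⟨l, c, m, h, rfl⟩, _, rfl, rfl⟩
    exact ⟨l + 1, c, m + 1, by omega, by simp [List.replicate_succ, repl_comm']⟩
  · rintro _ ⟨_, rfl, _, _, rfl, ⟨l, c, m, h, rfl⟩, _, rfl, _, rfl, rfl⟩
    exact ⟨l + 1 + 1, c, m + 1, by omega, by simp [List.replicate_succ, repl_comm', repl_comm]⟩
  · rintro _ ⟨_, rfl, _, rfl, _, rfl, _, rfl, rfl⟩
    exact ⟨0, 2, le_refl _, rfl⟩
  · rintro _ ⟨_, _, rfl, ⟨m, h, hh, rfl⟩, _, rfl, rfl⟩
    exact ⟨m, h + 1, by omega, by simp [List.replicate_succ, repl_comm']⟩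
  · rintro _ ⟨_, rfl, _, _, rfl, ⟨m, h, hh, rfl⟩, _, rfl, _, rfl, rfl⟩
    exact ⟨m + 1, h + 1 + 1, by omega, by simp [List.replicate_succ, repl_comm', repl_comm]⟩

/-- Words derived from a nonterminal of the grammar. -/
abbrev Dr (A : NT) (w : List Sg) : Prop := Der gr A w

theorem dr_rule {A : NT} {s : List (Symbol Sg NT)} (h : (⟨A, s⟩ : ContextFreeRule Sg NT) ∈ rl)
    {w : List Sg} (hw : Yl Dr s w) : Dr A w :=
  complete (g := gr) (r := ⟨A, s⟩) ((mem_gr _).mpr h) hw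

theorem dr_A (w : List Sg) : Dr .A w := by
  induction w with
  | nil => exact dr_rule (s := []) (by simp [rl]) rfl
  | cons t w ih =>
    have h : (⟨.A, [terminal t, nonterminal .A]⟩ : ContextFreeRule Sg NT) ∈ rl := by
      cases t <;> decide
    exact dr_rule h ⟨w, rfl, w, [], by simp, ih, rfl⟩

theorem dr_O (c : ℕ) : Dr .O (rep c .o) := by
  induction c with
  | zero => exact dr_rule (s := []) (by simp [rl]) rfl
  | succ c ih =>
    exact dr_rule (s := [terminal .o, nonterminal .O]) (by simp [rl])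
      ⟨rep c .o, by simp [List.replicate_succ], _, [], by simp, ih, rfl⟩

theorem dr_P (c : ℕ) : Dr .P (rep c .p) := by
  induction c with
  | zero => exact dr_rule (s := []) (by simp [rl]) rfl
  | succ c ih =>
    exact dr_rule (s := [terminal .p, nonterminal .P]) (by simp [rl])
      ⟨rep c .p, by simp [List.replicate_succ], _, [], by simp, ih, rfl⟩

theorem dr_F1 (c m : ℕ) : ∀ l, l ≤ 2 * m →
    Dr .F1 (rep l .a ++ Sg.d :: (rep c .o ++ Sg.x :: rep m .a)) := by
  induction m with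
  | zero =>
    intro l hl
    obtain rfl : l = 0 := by omega
    exact dr_rule (s := [terminal .d, nonterminal .O, terminal .x]) (by simp [rl])
      ⟨rep c .o ++ [Sg.x], by simp, rep c .o, [Sg.x], rfl, dr_O c, [], rfl, rfl⟩
  | succ m ih =>
    intro l hl
    rcases l with _ | _ | l
    · exact dr_rule (s := [nonterminal .F1, terminal .a]) (by simp [rl])
        ⟨_, [Sg.a], by simp [List.replicate_succ, repl_comm'], ih 0 (by omega), [], rfl, rfl⟩
    · exact dr_rule (s := [terminal .a, nonterminal .F1, terminal .a]) (by simp [rl])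
        ⟨_, rfl, _, [Sg.a],
          by simp [List.replicate_succ, repl_comm'], ih 0 (by omega), [], rfl, rfl⟩
    · exact dr_rule (s := [terminal .a, terminal .a, nonterminal .F1, terminal .a])
        (by simp [rl])
        ⟨_, rfl, _, rfl, _, [Sg.a],
          by simp [List.replicate_succ, repl_comm'], ih l (by omega), [], rfl, rfl⟩

theorem dr_F2 (c m : ℕ) : ∀ l, l ≤ 2 * m →
    Dr .F2 (rep m .b ++ Sg.y :: (rep c .p ++ Sg.e :: rep l .b)) := by
  induction m with
  | zero =>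
    intro l hl
    obtain rfl : l = 0 := by omega
    exact dr_rule (s := [terminal .y, nonterminal .P, terminal .e]) (by simp [rl])
      ⟨rep c .p ++ [Sg.e], by simp, rep c .p, [Sg.e], rfl, dr_P c, [], rfl, rfl⟩
  | succ m ih =>
    intro l hl
    rcases l with _ | _ | l
    · exact dr_rule (s := [terminal .b, nonterminal .F2]) (by simp [rl])
        ⟨_, rfl, _, [], by simp,
          ih 0 (by omega), rfl⟩
    · exact dr_rule (s := [terminal .b, nonterminal .F2, terminal .b]) (by simp [rl])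
        ⟨_, rfl, _, [Sg.b],
          by simp [List.replicate_succ], ih 0 (by omega), [], rfl, rfl⟩
    · exact dr_rule (s := [terminal .b, nonterminal .F2, terminal .b, terminal .b])
        (by simp [rl])
        ⟨_, rfl, _, [Sg.b, Sg.b],
          by simp [List.replicate_succ, repl_comm', repl_comm], ih l (by omega),
          [Sg.b], rfl, [], rfl, rfl⟩

theorem dr_F3 (m : ℕ) : ∀ h, 2 * m + 2 ≤ h →
    Dr .F3 (rep m .b ++ Sg.y :: Sg.x :: rep h .a) := by
  intro h
  induction h generalizing m with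
  | zero => intro h; omega
  | succ h ih =>
    intro hh
    by_cases h1 : 2 * m + 2 ≤ h
    · exact dr_rule (s := [nonterminal .F3, terminal .a]) (by simp [rl])
        ⟨_, [Sg.a], by simp [List.replicate_succ, repl_comm'], ih m h1, [], rfl, rfl⟩
    · obtain rfl : h = 2 * m + 1 := by omega
      clear ih h1 hh
      induction m with
      | zero =>
        exact dr_rule (s := [terminal .y, terminal .x, terminal .a, terminal .a])
          (by simp [rl]) ⟨_, rfl, _, rfl, _, rfl, _, rfl, rfl⟩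
      | succ m ih =>
        refine dr_rule (s := [terminal .b, nonterminal .F3, terminal .a, terminal .a])
          (by simp [rl]) ⟨_, rfl, _,
          [Sg.a, Sg.a], ?_, ih, [Sg.a], rfl, [], rfl, rfl⟩
        have : 2 * (m + 1) = 2 * m + 1 + 1 := by ring
        rw [this]
        simp [List.replicate_succ, repl_comm', repl_comm]

theorem dr_V (c : ℕ) (s : List Sg) (hs : Dr .V s) : Dr .V (rep c .o ++ (s ++ rep c .p)) := by
  induction c with
  | zero => simpa using hs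
  | succ c ih =>
    exact dr_rule (s := [terminal .o, nonterminal .V, terminal .p]) (by simp [rl])
      ⟨_, rfl, _, [Sg.p],
        by simp [List.replicate_succ, repl_comm'], ih, [], rfl, rfl⟩

theorem dr_U (l c : ℕ) (s : List Sg) (hs : Dr .V s) :
    Dr .U (rep l .a ++ Sg.d :: (rep c .o ++ (s ++ (rep c .p ++ Sg.e :: rep l .b)))) := by
  induction l with
  | zero =>
    exact dr_rule (s := [terminal .d, nonterminal .V, terminal .e]) (by simp [rl])
      ⟨_, rfl, _, [Sg.e], by simp, dr_V c s hs, [], rfl, rfl⟩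
  | succ l ih =>
    exact dr_rule (s := [terminal .a, nonterminal .U, terminal .b]) (by simp [rl])
      ⟨_, rfl, _, [Sg.b],
        by simp [List.replicate_succ, repl_comm'], ih, [], rfl, rfl⟩

theorem dr_T (t : Tr) : Dr .T t.word := by
  induction t with
  | leaf c l =>
    have hV : Dr .V [] := dr_rule (s := []) (by simp [rl]) rfl
    exact dr_rule (s := [terminal .x, nonterminal .U, terminal .y]) (by simp [rl])
      ⟨_, rfl, _, [Sg.y], by simp [opn, cls], dr_U l c [] hV, [], rfl, rfl⟩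
  | node c l t1 t2 t3 ih1 ih2 ih3 =>
    have hV : Dr .V (t1.word ++ (t2.word ++ t3.word)) :=
      dr_rule (s := [nonterminal .T, nonterminal .T, nonterminal .T]) (by simp [rl])
        ⟨_, _, rfl, ih1, _, _, rfl, ih2, _, [], by simp, ih3, rfl⟩
    exact dr_rule (s := [terminal .x, nonterminal .U, terminal .y]) (by simp [rl])
      ⟨_, rfl, _, [Sg.y], by simp [opn, cls], dr_U l c _ hV, [], rfl, rfl⟩

theorem LL_contextFree : LL.IsContextFree := by
  refine ⟨gr, ?_⟩
  ext w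
  rw [ContextFreeGrammar.mem_language_iff]
  constructor
  · intro h
    have h1 := sound (g := gr) (I := In)
      (fun r hr w h => In_closed r ((mem_gr r).mp hr) w h) h
    obtain ⟨w1, w2, rfl, h2, h3⟩ := h1
    have h3' : w2 = [] := h3
    subst h3'
    rw [List.append_nil]
    exact h2
  · intro h
    have : Dr .Z w := by
      rcases h with ⟨t, rfl⟩ | ⟨u, v, l, c, m, h, rfl⟩ | ⟨u, v, l, c, m, h, rfl⟩ |
        ⟨u, v, m, h, hh, rfl⟩
      · exact dr_rule (s := [nonterminal .T]) (by simp [rl]) ⟨_, [], by simp, dr_T t, rfl⟩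
      · exact dr_rule (s := [nonterminal .A, terminal .x, nonterminal .F1, nonterminal .A])
          (by simp [rl]) ⟨u, _, rfl, dr_A u, _, rfl, rep l .a ++ Sg.d :: (rep c .o ++
            Sg.x :: rep m .a), v, by simp, dr_F1 c m l h, v, [], by simp, dr_A v, rfl⟩
      · exact dr_rule (s := [nonterminal .A, nonterminal .F2, terminal .y, nonterminal .A])
          (by simp [rl]) ⟨u, _, rfl, dr_A u, rep m .b ++ Sg.y :: (rep c .p ++
            Sg.e :: rep l .b), Sg.y :: v, by simp, dr_F2 c m l h, v, rfl, v, [], by simp,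
            dr_A v, rfl⟩
      · exact dr_rule (s := [nonterminal .A, terminal .e, nonterminal .F3, nonterminal .A])
          (by simp [rl]) ⟨u, _, rfl, dr_A u, _, rfl, rep m .b ++ Sg.y :: Sg.x :: rep h .a,
            v, by simp, dr_F3 m h hh, v, [], by simp, dr_A v, rfl⟩
    exact this

end Pool.Agent.K1H73.Qrt
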