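import Mathlib

/-!
Definitions for the problem on the least principal rational cone containing the quasi-rational
languages: transducers, cones, linear languages, quasi-rational languages.
-/

namespace Pool.Agent.K1H73.Qrt

/-- A finite transducer: a nondeterministic finite automaton with output. A transition reads at
most one letter of the input alphabet and writes at most one letter of the output alphabet. -/
structure Transducer (α β : Type) where
  /-- the states -/
  σ : Type
  /-- there are finitely many states -/
  fin : Finite σ
  /-- the transitions -/
  step : σ → Option α → Option β → Set σ
  /-- the initial states -/
  start : Set σ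
  /-- the final states -/
  accept : Set σ

/-- `M.Run s v w t`: there is a path of the transducer `M` from the state `s` to the state `t`
which reads `v` and writes `w`. -/
inductive Transducer.Run {α β : Type} (M : Transducer α β) : M.σ → List α → List β → M.σ → Prop
  | nil (s : M.σ) : Run M s [] [] s
  | cons {s t u : M.σ} {a : Option α} {b : Option β} {v : List α} {w : List β}
      (h : t ∈ M.step s a b) (h' : Run M t v w u) : Run M s (a.toList ++ v) (b.toList ++ w) u

/-- The image of a language by the rational transduction computed by a transducer. -/
def Transducer.image {α β : Type} (M : Transducer α β) (L : Language α) : Language β :=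
  {w | ∃ v ∈ L, ∃ s ∈ M.start, ∃ t ∈ M.accept, M.Run s v w t}

/-- `InCone L P`: the language `P` lies in the principal rational cone `T(L)`, i.e. it is the
image of `L` by a rational transduction. -/
def InCone {α β : Type} (L : Language α) (P : Language β) : Prop :=
  ∃ M : Transducer α β, P = M.image L

/-- Linear languages: generated by a context-free grammar all of whose right-hand sides contain
at most one nonterminal. -/
def IsLinear {α : Type} (L : Language α) : Prop :=
  ∃ g : ContextFreeGrammar α, g.language = L ∧ ∀ r ∈ g.rules,
    (∃ u : List α, r.output = u.map Symbol.terminal) ∨
    (∃ (u : List α) (B : g.NT) (v : List α),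
      r.output = u.map Symbol.terminal ++ [Symbol.nonterminal B] ++ v.map Symbol.terminal)

/-- Substitution of languages for letters: the union of the products `s a₁ * ⋯ * s aₙ` over all
words `a₁ ⋯ aₙ` of `L`. -/
def subst {α β : Type} (L : Language α) (s : α → Language β) : Language β :=
  {w | ∃ u ∈ L, w ∈ (u.map s).prod}

/-- The quasi-rational (non-expansive) languages: the smallest family of languages over finite
alphabets that contains the linear languages and is closed under substitution. -/
def QuasiRational (α : Type) [Finite α] (L : Language α) : Prop :=
  ∀ F : (∀ β : Type, Language β → Prop),
    (∀ (β : Type) [Finite β] (P : Language β), IsLinear P → F β P) →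
    (∀ (β γ : Type) [Finite β] [Finite γ] (P : Language β) (s : β → Language γ),
      F β P → (∀ b, F γ (s b)) → F γ (subst P s)) →
    F α L

end Pool.Agent.K1H73.Qrt
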