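import Mathlib

set_option linter.unusedVariables false
set_option linter.unusedSimpArgs false

namespace Pool.Agent.K1H73.Qrt

/-- Paths of length `k` of a relation. -/
def Rp {S : Type} (r : S → S → Prop) : ℕ → S → S → Prop
  | 0, p, q => p = q
  | k + 1, p, q => ∃ s, r p s ∧ Rp r k s q

/-- Paths labelled by a word. -/
def Pth {A S : Type} (R : A → S → S → Prop) : List A → S → S → Prop
  | [], p, q => p = q
  | a :: w, p, q => ∃ s, R a p s ∧ Pth R w s q

theorem Rp_add {S : Type} {r : S → S → Prop} {j k : ℕ} : ∀ {p q : S},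
    Rp r (j + k) p q ↔ ∃ s, Rp r j p s ∧ Rp r k s q := by
  induction j with
  | zero =>
    intro p q
    rw [Nat.zero_add]
    constructor
    · intro h; exact ⟨p, rfl, h⟩
    · rintro ⟨s, hs, h⟩
      have : p = s := hs
      rwa [this]
  | succ j ih =>
    intro p q
    have : j + 1 + k = (j + k) + 1 := by ring
    rw [this]
    constructor
    · rintro ⟨s, h1, h2⟩
      obtain ⟨t, h3, h4⟩ := ih.mp h2
      exact ⟨t, ⟨s, h1, h3⟩, h4⟩
    · rintro ⟨t, ⟨s, h1, h3⟩, h4⟩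
      exact ⟨s, h1, ih.mpr ⟨t, h3, h4⟩⟩

theorem Rp_one {S : Type} {r : S → S → Prop} {p q : S} : Rp r 1 p q ↔ r p q := by
  constructor
  · rintro ⟨s, h, h'⟩
    have : s = q := h'
    rwa [← this]
  · intro h; exact ⟨q, h, rfl⟩

theorem Pth_append {A S : Type} {R : A → S → S → Prop} {u v : List A} : ∀ {p q : S},
    Pth R (u ++ v) p q ↔ ∃ s, Pth R u p s ∧ Pth R v s q := by
  induction u with
  | nil =>
    intro p q
    constructor
    · intro h; exact ⟨p, rfl, h⟩
    · rintro ⟨s, hs, h⟩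
      have : p = s := hs
      rw [List.nil_append]
      rwa [this]
  | cons a u ih =>
    intro p q
    constructor
    · rintro ⟨s, h1, h2⟩
      obtain ⟨t, h3, h4⟩ := ih.mp h2
      exact ⟨t, ⟨s, h1, h3⟩, h4⟩
    · rintro ⟨t, ⟨s, h1, h3⟩, h4⟩
      exact ⟨s, h1, ih.mpr ⟨t, h3, h4⟩⟩

theorem Pth_rep {A S : Type} {R : A → S → S → Prop} {a : A} {k : ℕ} : ∀ {p q : S},
    Pth R (List.replicate k a) p q ↔ Rp (R a) k p q := by
  induction k with
  | zero => intro p q; exact Iff.rfl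
  | succ k ih =>
    intro p q
    constructor
    · rintro ⟨s, h1, h2⟩; exact ⟨s, h1, ih.mp h2⟩
    · rintro ⟨s, h1, h2⟩; exact ⟨s, h1, ih.mpr h2⟩

theorem Rp_fun {S : Type} {r : S → S → Prop} {k : ℕ} : ∀ {p q : S}, Rp r k p q →
    ∃ g : ℕ → S, g 0 = p ∧ g k = q ∧ ∀ t < k, r (g t) (g (t + 1)) := by
  induction k with
  | zero =>
    intro p q h
    exact ⟨fun _ => p, rfl, h, fun t ht => absurd ht (by omega)⟩
  | succ k ih =>
    rintro p q ⟨s, h1, h2⟩
    obtain ⟨g, h3, h4, h5⟩ := ih h2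
    refine ⟨fun t => Nat.casesOn t p g, rfl, h4, fun t ht => ?_⟩
    cases t with
    | zero =>
      show r p (g 0)
      rwa [h3]
    | succ t => exact h5 t (by omega)

theorem Rp_of_fun {S : Type} {r : S → S → Prop} {g : ℕ → S} {N : ℕ}
    (hg : ∀ t < N, r (g t) (g (t + 1))) : ∀ k a, a + k ≤ N → Rp r k (g a) (g (a + k)) := by
  intro k
  induction k with
  | zero => intro a _; exact rfl
  | succ k ih =>
    intro a ha
    refine ⟨g (a + 1), hg a (by omega), ?_⟩
    have := ih (a + 1) (by omega)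
    have h2 : a + (k + 1) = a + 1 + k := by ring
    rwa [h2]

variable {S : Type} [Fintype S]

theorem loop {r : S → S → Prop} {m : ℕ} {p q : S} (h : Rp r m p q)
    (hm : Fintype.card S ≤ m) : ∃ i j k s, i + j + k = m ∧ 1 ≤ j ∧ j ≤ Fintype.card S ∧
    Rp r i p s ∧ Rp r j s s ∧ Rp r k s q := by
  obtain ⟨g, h0, h1, h2⟩ := Rp_fun h
  have hcard : Fintype.card S < Fintype.card (Fin (Fintype.card S + 1)) := by
    rw [Fintype.card_fin]; omega
  obtain ⟨a, b, hab, hg⟩ := Fintype.exists_ne_map_eq_of_card_lt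
    (fun i : Fin (Fintype.card S + 1) => g i.val) hcard
  have key : ∀ a b : Fin (Fintype.card S + 1), a.val < b.val → g a.val = g b.val →
      ∃ i j k s, i + j + k = m ∧ 1 ≤ j ∧ j ≤ Fintype.card S ∧
        Rp r i p s ∧ Rp r j s s ∧ Rp r k s q := by
    intro a b hab hg
    have ha := a.isLt
    have hb := b.isLt
    refine ⟨a.val, b.val - a.val, m - b.val, g a.val, by omega, by omega, by omega, ?_, ?_, ?_⟩
    · have := Rp_of_fun h2 a.val 0 (by omega)
      rwa [h0, Nat.zero_add] at this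
    · have := Rp_of_fun h2 (b.val - a.val) a.val (by omega)
      have h3 : a.val + (b.val - a.val) = b.val := by omega
      rw [h3, ← hg] at this
      exact this
    · have := Rp_of_fun h2 (m - b.val) b.val (by omega)
      have h3 : b.val + (m - b.val) = m := by omega
      rw [h3, h1, ← hg] at this
      exact this
  rcases Nat.lt_trichotomy a.val b.val with h | h | h
  · exact key a b h hg
  · exact absurd (Fin.ext h) hab
  · exact key b a h hg.symm

theorem reach_ge {r : S → S → Prop} {t : ℕ} {p q : S} : ∀ {m : ℕ}, Rp r m p q → t ≤ m →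
    ∃ m', t ≤ m' ∧ m' < t + Fintype.card S ∧ m' ≤ m ∧ Rp r m' p q := by
  intro m
  induction m using Nat.strong_induction_on with
  | _ m ih =>
    intro h ht
    by_cases hm : m < t + Fintype.card S
    · exact ⟨m, ht, hm, le_refl _, h⟩
    · obtain ⟨i, j, k, s, h1, h2, h3, h4, h5, h6⟩ := loop h (by omega)
      obtain ⟨m', h7, h8, h9, h10⟩ := ih (i + k) (by omega) (Rp_add.mpr ⟨s, h4, h6⟩) (by omega)
      exact ⟨m', h7, h8, by omega, h10⟩

theorem reach_short {r : S → S → Prop} {p q : S} {m : ℕ} (h : Rp r m p q) :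
    ∃ m', m' < Fintype.card S ∧ m' ≤ m ∧ Rp r m' p q := by
  obtain ⟨m', _, h1, h2, h3⟩ := reach_ge (t := 0) h (Nat.zero_le _)
  exact ⟨m', by omega, h2, h3⟩

theorem pump {r : S → S → Prop} {m : ℕ} {p q : S} (h : Rp r m p q)
    (hm : Fintype.card S ≤ m) (B : ℕ) : ∃ m', B ≤ m' ∧ Rp r m' p q := by
  obtain ⟨i, j, k, s, h1, h2, h3, h4, h5, h6⟩ := loop h hm
  have key : ∀ t, Rp r (t * j) s s := by
    intro t
    induction t with
    | zero => rw [Nat.zero_mul]; exact rfl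
    | succ t ih => rw [Nat.succ_mul]; exact Rp_add.mpr ⟨s, ih, h5⟩
  refine ⟨i + (B * j + k), ?_, Rp_add.mpr ⟨s, h4, Rp_add.mpr ⟨s, key B, h6⟩⟩⟩
  have : B ≤ B * j := Nat.le_mul_of_pos_right B (by omega)
  omega

theorem word_short {A : Type} {R : A → S → S → Prop} {u : List A} {p q : S}
    (h : Pth R u p q) : ∃ u' : List A, u'.length < Fintype.card S ∧ Pth R u' p q := by
  have h1 : ∀ (u : List A) (p q : S), Pth R u p q → Rp (fun p q => ∃ a, R a p q) u.length p q := by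
    intro u
    induction u with
    | nil => intro p q h; exact h
    | cons a u ih =>
      rintro p q ⟨s, h1, h2⟩
      exact ⟨s, ⟨a, h1⟩, ih _ _ h2⟩
  have h2 : ∀ (k : ℕ) (p q : S), Rp (fun p q => ∃ a, R a p q) k p q →
      ∃ u : List A, u.length = k ∧ Pth R u p q := by
    intro k
    induction k with
    | zero => intro p q h; exact ⟨[], rfl, h⟩
    | succ k ih =>
      rintro p q ⟨s, ⟨a, h1⟩, h2⟩
      obtain ⟨u, h3, h4⟩ := ih _ _ h2
      exact ⟨a :: u, by rw [List.length_cons, h3], s, h1, h4⟩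
  obtain ⟨m, h3, _, h4⟩ := reach_short (h1 u p q h)
  obtain ⟨u', h5, h6⟩ := h2 m p q h4
  exact ⟨u', by omega, h6⟩

omit [Fintype S] in
theorem Rp_prod {r r' : S → S → Prop} {k : ℕ} : ∀ {p0 p1 p4 p5 : S},
    Rp (fun x y : S × S => r x.1 y.1 ∧ r' y.2 x.2) k (p0, p5) (p1, p4) ↔
      Rp r k p0 p1 ∧ Rp r' k p4 p5 := by
  induction k with
  | zero =>
    intro p0 p1 p4 p5
    constructor
    · intro h
      have : (p0, p5) = (p1, p4) := h
      exact ⟨congrArg Prod.fst this, (congrArg Prod.snd this).symm⟩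
    · rintro ⟨h1, h2⟩
      have h1' : p0 = p1 := h1
      have h2' : p4 = p5 := h2
      show (p0, p5) = (p1, p4)
      rw [h1', h2']
  | succ k ih =>
    intro p0 p1 p4 p5
    constructor
    · rintro ⟨⟨s, s'⟩, ⟨h1, h1'⟩, h2⟩
      obtain ⟨h3, h4⟩ := ih.mp h2
      exact ⟨⟨s, h1, h3⟩, Rp_add.mpr ⟨s', h4, Rp_one.mpr h1'⟩⟩
    · rintro ⟨⟨s, h1, h3⟩, h4⟩
      obtain ⟨s', h5, h6⟩ := Rp_add.mp h4
      exact ⟨(s, s'), ⟨h1, Rp_one.mp h6⟩, ih.mpr ⟨h3, h5⟩⟩

theorem pair_short {A : Type} {R : A → S → S → Prop} {z z' : A} {c : ℕ} {p0 p1 p4 p5 : S}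
    (h : Pth R (List.replicate c z) p0 p1) (h' : Pth R (List.replicate c z') p4 p5)
    (hc : Fintype.card S * Fintype.card S ≤ c) :
    ∃ c' < c, Pth R (List.replicate c' z) p0 p1 ∧ Pth R (List.replicate c' z') p4 p5 := by
  rw [Pth_rep] at h h'
  have h1 := Rp_prod.mpr ⟨h, h'⟩
  have hcard : Fintype.card (S × S) ≤ c := by rwa [Fintype.card_prod]
  obtain ⟨m', h2, _, h3⟩ := reach_short h1
  obtain ⟨h4, h5⟩ := Rp_prod.mp h3
  exact ⟨m', by omega, Pth_rep.mpr h4, Pth_rep.mpr h5⟩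

end Pool.Agent.K1H73.Qrt
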