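import Pool.Agent.K1H73.QrtLang
import Pool.Agent.K1H73.QrtPath

set_option linter.unusedVariables false
set_option linter.unusedSimpArgs false

namespace Pool.Agent.K1H73.Qrt

variable {S : Type} [Fintype S]

/-- Words with errors. -/
def Er (w : List Sg) : Prop := E1 w ∨ E2 w ∨ E3 w

theorem Pth_cons {A : Type} {R : A → S → S → Prop} {a : A} {w : List A} {p q : S} :
    Pth R (a :: w) p q ↔ ∃ s, R a p s ∧ Pth R w s q := Iff.rfl

theorem E1_short {R : Sg → S → S → Prop} {s0 f : S} {w : List Sg} (hw : E1 w)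
    (h : Pth R w s0 f) : ∃ w', E1 w' ∧ Pth R w' s0 f ∧ w'.length ≤ 10 * Fintype.card S + 10 := by
  obtain ⟨u, v, l, c, m, hlm, rfl⟩ := hw
  obtain ⟨s1, h1, s2, h2, h3⟩ := Pth_append.mp h
  obtain ⟨s3, h4, s4, h5, h6⟩ := Pth_append.mp h3
  obtain ⟨s5, h7, s6, h8, h9⟩ := Pth_append.mp h6
  obtain ⟨s7, h10, h11⟩ := Pth_append.mp h9
  obtain ⟨u', hu1, hu2⟩ := word_short h1
  obtain ⟨v', hv1, hv2⟩ := word_short h11
  obtain ⟨l', hl1, hl2, hl3⟩ := reach_short (Pth_rep.mp h4)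
  obtain ⟨c', hc1, hc2, hc3⟩ := reach_short (Pth_rep.mp h7)
  obtain ⟨m', hm1, hm2, hm3, hm4⟩ := reach_ge (t := (l' + 1) / 2) (Pth_rep.mp h10) (by omega)
  refine ⟨u' ++ Sg.x :: (rep l' .a ++ Sg.d :: (rep c' .o ++ Sg.x :: (rep m' .a ++ v'))),
    ⟨u', v', l', c', m', by omega, rfl⟩, ?_, ?_⟩
  · exact Pth_append.mpr ⟨s1, hu2, s2, h2, Pth_append.mpr ⟨s3, Pth_rep.mpr hl3, s4, h5,
      Pth_append.mpr ⟨s5, Pth_rep.mpr hc3, s6, h8, Pth_append.mpr ⟨s7, Pth_rep.mpr hm4, hv2⟩⟩⟩⟩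
  · simp only [List.length_append, List.length_cons, List.length_replicate]
    omega

theorem E2_short {R : Sg → S → S → Prop} {s0 f : S} {w : List Sg} (hw : E2 w)
    (h : Pth R w s0 f) : ∃ w', E2 w' ∧ Pth R w' s0 f ∧ w'.length ≤ 10 * Fintype.card S + 10 := by
  obtain ⟨u, v, l, c, m, hlm, rfl⟩ := hw
  obtain ⟨s1, h1, h3⟩ := Pth_append.mp h
  obtain ⟨s3, h4, s4, h5, h6⟩ := Pth_append.mp h3
  obtain ⟨s5, h7, s6, h8, h9⟩ := Pth_append.mp h6
  obtain ⟨s7, h10, s8, h12, h11⟩ := Pth_append.mp h9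
  obtain ⟨u', hu1, hu2⟩ := word_short h1
  obtain ⟨v', hv1, hv2⟩ := word_short h11
  obtain ⟨l', hl1, hl2, hl3⟩ := reach_short (Pth_rep.mp h10)
  obtain ⟨c', hc1, hc2, hc3⟩ := reach_short (Pth_rep.mp h7)
  obtain ⟨m', hm1, hm2, hm3, hm4⟩ := reach_ge (t := (l' + 1) / 2) (Pth_rep.mp h4) (by omega)
  refine ⟨u' ++ (rep m' .b ++ Sg.y :: (rep c' .p ++ Sg.e :: (rep l' .b ++ Sg.y :: v'))),
    ⟨u', v', l', c', m', by omega, rfl⟩, ?_, ?_⟩
  · exact Pth_append.mpr ⟨s1, hu2, Pth_append.mpr ⟨s3, Pth_rep.mpr hm4, s4, h5,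
      Pth_append.mpr ⟨s5, Pth_rep.mpr hc3, s6, h8, Pth_append.mpr ⟨s7, Pth_rep.mpr hl3,
        s8, h12, hv2⟩⟩⟩⟩
  · simp only [List.length_append, List.length_cons, List.length_replicate]
    omega

theorem E3_short {R : Sg → S → S → Prop} {s0 f : S} {w : List Sg} (hw : E3 w)
    (h : Pth R w s0 f) : ∃ w', E3 w' ∧ Pth R w' s0 f ∧ w'.length ≤ 10 * Fintype.card S + 10 := by
  obtain ⟨u, v, m, k, hlm, rfl⟩ := hw
  obtain ⟨s1, h1, s2, h2, h3⟩ := Pth_append.mp h
  obtain ⟨s3, h4, s4, h5, s5, h6, h7⟩ := Pth_append.mp h3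
  obtain ⟨s6, h8, h9⟩ := Pth_append.mp h7
  obtain ⟨u', hu1, hu2⟩ := word_short h1
  obtain ⟨v', hv1, hv2⟩ := word_short h9
  obtain ⟨m', hl1, hl2, hl3⟩ := reach_short (Pth_rep.mp h4)
  obtain ⟨k', hm1, hm2, hm3, hm4⟩ := reach_ge (t := 2 * m' + 2) (Pth_rep.mp h8) (by omega)
  refine ⟨u' ++ Sg.e :: (rep m' .b ++ Sg.y :: Sg.x :: (rep k' .a ++ v')),
    ⟨u', v', m', k', by omega, rfl⟩, ?_, ?_⟩
  · exact Pth_append.mpr ⟨s1, hu2, s2, h2, Pth_append.mpr ⟨s3, Pth_rep.mpr hl3, s4, h5, s5, h6,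
      Pth_append.mpr ⟨s6, Pth_rep.mpr hm4, hv2⟩⟩⟩
  · simp only [List.length_append, List.length_cons, List.length_replicate]
    omega

theorem Er_short {R : Sg → S → S → Prop} {s0 f : S} {w : List Sg} (hw : Er w)
    (h : Pth R w s0 f) : ∃ w', Er w' ∧ Pth R w' s0 f ∧ w'.length ≤ 10 * Fintype.card S + 10 := by
  rcases hw with hw | hw | hw
  · obtain ⟨w', h1, h2, h3⟩ := E1_short hw h
    exact ⟨w', Or.inl h1, h2, h3⟩
  · obtain ⟨w', h1, h2, h3⟩ := E2_short hw h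
    exact ⟨w', Or.inr (Or.inl h1), h2, h3⟩
  · obtain ⟨w', h1, h2, h3⟩ := E3_short hw h
    exact ⟨w', Or.inr (Or.inr h1), h2, h3⟩

section noE

variable {R : Sg → S → S → Prop} {s0 f : S} (hE : ∀ w, Pth R w s0 f → ¬ Er w)

include hE in
theorem noE1 {u v : List Sg} {l c m : ℕ}
    (h : Pth R (u ++ Sg.x :: (rep l .a ++ Sg.d :: (rep c .o ++ Sg.x :: (rep m .a ++ v)))) s0 f) :
    2 * m + 1 ≤ l ∧ m < Fintype.card S := by
  constructor
  · by_contra hlt
    exact hE _ h (Or.inl ⟨u, v, l, c, m, by omega, rfl⟩)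
  · by_contra hlt
    obtain ⟨s1, h1, s2, h2, h3⟩ := Pth_append.mp h
    obtain ⟨s3, h4, s4, h5, h6⟩ := Pth_append.mp h3
    obtain ⟨s5, h7, s6, h8, h9⟩ := Pth_append.mp h6
    obtain ⟨s7, h10, h11⟩ := Pth_append.mp h9
    obtain ⟨m', hm1, hm2⟩ := pump (Pth_rep.mp h10) (by omega) l
    refine hE (u ++ Sg.x :: (rep l .a ++ Sg.d :: (rep c .o ++ Sg.x :: (rep m' .a ++ v)))) ?_
      (Or.inl ⟨u, v, l, c, m', by omega, rfl⟩)
    exact Pth_append.mpr ⟨s1, h1, s2, h2, Pth_append.mpr ⟨s3, h4, s4, h5,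
      Pth_append.mpr ⟨s5, h7, s6, h8, Pth_append.mpr ⟨s7, Pth_rep.mpr hm2, h11⟩⟩⟩⟩

include hE in
theorem noE2 {u v : List Sg} {l c m : ℕ}
    (h : Pth R (u ++ (rep m .b ++ Sg.y :: (rep c .p ++ Sg.e :: (rep l .b ++ Sg.y :: v)))) s0 f) :
    2 * m + 1 ≤ l ∧ m < Fintype.card S := by
  constructor
  · by_contra hlt
    exact hE _ h (Or.inr (Or.inl ⟨u, v, l, c, m, by omega, rfl⟩))
  · by_contra hlt
    obtain ⟨s1, h1, h3⟩ := Pth_append.mp h
    obtain ⟨s3, h4, s4, h5, h6⟩ := Pth_append.mp h3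
    obtain ⟨m', hm1, hm2⟩ := pump (Pth_rep.mp h4) (by omega) l
    refine hE (u ++ (rep m' .b ++ Sg.y :: (rep c .p ++ Sg.e :: (rep l .b ++ Sg.y :: v)))) ?_
      (Or.inr (Or.inl ⟨u, v, l, c, m', by omega, rfl⟩))
    exact Pth_append.mpr ⟨s1, h1, Pth_append.mpr ⟨s3, Pth_rep.mpr hm2, s4, h5, h6⟩⟩

include hE in
theorem noE3 {u v : List Sg} {m k : ℕ}
    (h : Pth R (u ++ Sg.e :: (rep m .b ++ Sg.y :: Sg.x :: (rep k .a ++ v))) s0 f) :
    k ≤ 2 * m + 1 ∧ k < Fintype.card S := by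
  constructor
  · by_contra hlt
    exact hE _ h (Or.inr (Or.inr ⟨u, v, m, k, by omega, rfl⟩))
  · by_contra hlt
    obtain ⟨s1, h1, s2, h2, h3⟩ := Pth_append.mp h
    obtain ⟨s3, h4, s4, h5, s5, h6, h7⟩ := Pth_append.mp h3
    obtain ⟨s6, h8, h9⟩ := Pth_append.mp h7
    obtain ⟨k', hm1, hm2⟩ := pump (Pth_rep.mp h8) (by omega) (2 * m + 2)
    refine hE (u ++ Sg.e :: (rep m .b ++ Sg.y :: Sg.x :: (rep k' .a ++ v))) ?_
      (Or.inr (Or.inr ⟨u, v, m, k', by omega, rfl⟩))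
    exact Pth_append.mpr ⟨s1, h1, s2, h2, Pth_append.mpr ⟨s3, h4, s4, h5, s5, h6,
      Pth_append.mpr ⟨s6, Pth_rep.mpr hm2, h9⟩⟩⟩

end noE

/-- The label of the root. -/
def Tr.lab' : Tr → ℕ
  | .leaf c _ => c
  | .node c _ _ _ _ => c

/-- The inner word. -/
def Tr.inn : Tr → List Sg
  | .leaf _ _ => []
  | .node _ _ t1 t2 t3 => t1.word ++ (t2.word ++ t3.word)

/-- Changing the label and tag of the root. -/
def Tr.set (c l : ℕ) : Tr → Tr
  | .leaf _ _ => .leaf c l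
  | .node _ _ t1 t2 t3 => .node c l t1 t2 t3

theorem word_dec (t : Tr) : t.word = Sg.x :: (rep t.tag .a ++ Sg.d :: (rep t.lab' .o ++
    (t.inn ++ (rep t.lab' .p ++ Sg.e :: (rep t.tag .b ++ [Sg.y]))))) := by
  cases t <;> simp [Tr.word, Tr.tag, Tr.lab', Tr.inn, opn, cls]

theorem word_set (t : Tr) (c l : ℕ) : (t.set c l).word = Sg.x :: (rep l .a ++ Sg.d ::
    (rep c .o ++ (t.inn ++ (rep c .p ++ Sg.e :: (rep l .b ++ [Sg.y]))))) := by
  cases t <;> simp [Tr.set, Tr.word, Tr.tag, Tr.lab', Tr.inn, opn, cls]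

/-- Shortest trees. -/
def MinT (R : Sg → S → S → Prop) (T : Tr) (p q : S) : Prop :=
  Pth R T.word p q ∧ ∀ T' : Tr, Pth R T'.word p q → T.word.length ≤ T'.word.length

theorem minT_lab {R : Sg → S → S → Prop} {T : Tr} {p q : S} (h : MinT R T p q) :
    T.lab' < Fintype.card S * Fintype.card S ∧ T.tag < Fintype.card S * Fintype.card S := by
  obtain ⟨hp, hm⟩ := h
  have hp' := hp
  rw [word_dec] at hp'
  obtain ⟨s1, h1, h2⟩ := hp'
  obtain ⟨s2, h3, s3, h4, h5⟩ := Pth_append.mp h2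
  obtain ⟨s4, h6, h7⟩ := Pth_append.mp h5
  obtain ⟨s5, h8, h9⟩ := Pth_append.mp h7
  obtain ⟨s6, h10, s7, h11, h12⟩ := Pth_append.mp h9
  obtain ⟨s8, h13, h14⟩ := Pth_append.mp h12
  constructor
  · by_contra hlt
    obtain ⟨c', hc1, hc2, hc3⟩ := pair_short h6 h10 (by omega)
    have h15 : Pth R (T.set c' T.tag).word p q := by
      rw [word_set]
      exact ⟨s1, h1, Pth_append.mpr ⟨s2, h3, s3, h4, Pth_append.mpr ⟨s4, hc2,
        Pth_append.mpr ⟨s5, h8, Pth_append.mpr ⟨s6, hc3, s7, h11,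
        Pth_append.mpr ⟨s8, h13, h14⟩⟩⟩⟩⟩⟩
    have h16 := hm _ h15
    rw [word_set, word_dec T] at h16
    simp only [List.length_append, List.length_cons, List.length_replicate] at h16
    omega
  · by_contra hlt
    obtain ⟨c', hc1, hc2, hc3⟩ := pair_short h3 h13 (by omega)
    have h15 : Pth R (T.set T.lab' c').word p q := by
      rw [word_set]
      exact ⟨s1, h1, Pth_append.mpr ⟨s2, hc2, s3, h4, Pth_append.mpr ⟨s4, h6,
        Pth_append.mpr ⟨s5, h8, Pth_append.mpr ⟨s6, h10, s7, h11,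
        Pth_append.mpr ⟨s8, hc3, h14⟩⟩⟩⟩⟩⟩
    have h16 := hm _ h15
    rw [word_set, word_dec T] at h16
    simp only [List.length_append, List.length_cons, List.length_replicate] at h16
    omega

theorem word_node (c l : ℕ) (T1 T2 T3 : Tr) : (Tr.node c l T1 T2 T3).word =
    opn c l ++ (T1.word ++ (T2.word ++ (T3.word ++ cls c l))) := rfl

theorem len_opn (c l : ℕ) : (opn c l).length = l + c + 2 := by
  simp [opn]; ring

theorem len_cls (c l : ℕ) : (cls c l).length = l + c + 2 := by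
  simp [cls]; ring

/-- Decomposition of a shortest tree. -/
theorem node_dec {R : Sg → S → S → Prop} {s0 f : S} (hE : ∀ w, Pth R w s0 f → ¬ Er w)
    {c l : ℕ} {T1 T2 T3 : Tr} {p q : S} (h : MinT R (.node c l T1 T2 T3) p q)
    {u v : List Sg} (hu : Pth R u s0 p) (hv : Pth R v q f) :
    ∃ p1 p2 p3 p4,
      (MinT R T1 p1 p2 ∧ ∃ u1 v1, Pth R u1 s0 p1 ∧ Pth R v1 p2 f) ∧
      (MinT R T2 p2 p3 ∧ ∃ u1 v1, Pth R u1 s0 p2 ∧ Pth R v1 p3 f) ∧
      (MinT R T3 p3 p4 ∧ ∃ u1 v1, Pth R u1 s0 p3 ∧ Pth R v1 p4 f) ∧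
      2 * T1.tag + 1 ≤ l ∧ T1.tag < Fintype.card S ∧ T2.tag ≤ 2 * T1.tag + 1 ∧
      T2.tag < Fintype.card S ∧ 2 * T3.tag + 1 ≤ l ∧ T3.tag < Fintype.card S := by
  obtain ⟨hp, hm⟩ := h
  have hp' := hp
  rw [word_node] at hp'
  obtain ⟨p1, h1, h2⟩ := Pth_append.mp hp'
  obtain ⟨p2, h3, h4⟩ := Pth_append.mp h2
  obtain ⟨p3, h5, h6⟩ := Pth_append.mp h4
  obtain ⟨p4, h7, h8⟩ := Pth_append.mp h6
  have hall : Pth R (u ++ ((opn c l ++ (T1.word ++ (T2.word ++ (T3.word ++ cls c l)))) ++ v))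
      s0 f := Pth_append.mpr ⟨p, hu, Pth_append.mpr ⟨q, hp', hv⟩⟩
  refine ⟨p1, p2, p3, p4, ⟨⟨h3, ?_⟩, u ++ opn c l, (T2.word ++ (T3.word ++ cls c l)) ++ v,
    Pth_append.mpr ⟨p, hu, h1⟩, Pth_append.mpr ⟨q, h4, hv⟩⟩,
    ⟨⟨h5, ?_⟩, u ++ (opn c l ++ T1.word), (T3.word ++ cls c l) ++ v,
    Pth_append.mpr ⟨p, hu, Pth_append.mpr ⟨p1, h1, h3⟩⟩, Pth_append.mpr ⟨q, h6, hv⟩⟩,
    ⟨⟨h7, ?_⟩, u ++ (opn c l ++ (T1.word ++ T2.word)), cls c l ++ v,
    Pth_append.mpr ⟨p, hu, Pth_append.mpr ⟨p1, h1, Pth_append.mpr ⟨p2, h3, h5⟩⟩⟩,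
    Pth_append.mpr ⟨q, h8, hv⟩⟩, ?_⟩
  · intro T' hT'
    have h9 : Pth R (Tr.node c l T' T2 T3).word p q :=
      Pth_append.mpr ⟨p1, h1, Pth_append.mpr ⟨p2, hT', h4⟩⟩
    have h10 := hm _ h9
    rw [word_node, word_node] at h10
    simp only [List.length_append] at h10
    omega
  · intro T' hT'
    have h9 : Pth R (Tr.node c l T1 T' T3).word p q :=
      Pth_append.mpr ⟨p1, h1, Pth_append.mpr ⟨p2, h3, Pth_append.mpr ⟨p3, hT', h6⟩⟩⟩
    have h10 := hm _ h9
    rw [word_node, word_node] at h10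
    simp only [List.length_append] at h10
    omega
  · intro T' hT'
    have h9 : Pth R (Tr.node c l T1 T2 T').word p q :=
      Pth_append.mpr ⟨p1, h1, Pth_append.mpr ⟨p2, h3, Pth_append.mpr ⟨p3, h5,
        Pth_append.mpr ⟨p4, hT', h8⟩⟩⟩⟩
    have h10 := hm _ h9
    rw [word_node, word_node] at h10
    simp only [List.length_append] at h10
    omega
  · have e1 := noE1 hE (u := u) (l := l) (c := c) (m := T1.tag)
      (v := Sg.d :: (rep T1.lab' .o ++ (T1.inn ++ (rep T1.lab' .p ++ Sg.e ::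
        (rep T1.tag .b ++ Sg.y :: (T2.word ++ (T3.word ++ (cls c l ++ v)))))))) (by
        have : u ++ ((opn c l ++ (T1.word ++ (T2.word ++ (T3.word ++ cls c l)))) ++ v) =
          u ++ Sg.x :: (rep l .a ++ Sg.d :: (rep c .o ++ Sg.x :: (rep T1.tag .a ++
          (Sg.d :: (rep T1.lab' .o ++ (T1.inn ++ (rep T1.lab' .p ++ Sg.e ::
          (rep T1.tag .b ++ Sg.y :: (T2.word ++ (T3.word ++ (cls c l ++ v)))))))))))  := by
          rw [word_dec T1]
          simp [opn]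
        rw [← this]
        exact hall)
    have e3 := noE3 hE (u := u ++ (opn c l ++ Sg.x :: (rep T1.tag .a ++ Sg.d ::
        (rep T1.lab' .o ++ (T1.inn ++ rep T1.lab' .p))))) (m := T1.tag) (k := T2.tag)
        (v := Sg.d :: (rep T2.lab' .o ++ (T2.inn ++ (rep T2.lab' .p ++ Sg.e ::
        (rep T2.tag .b ++ Sg.y :: (T3.word ++ (cls c l ++ v))))))) (by
        have : u ++ ((opn c l ++ (T1.word ++ (T2.word ++ (T3.word ++ cls c l)))) ++ v) =
          (u ++ (opn c l ++ Sg.x :: (rep T1.tag .a ++ Sg.d ::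
          (rep T1.lab' .o ++ (T1.inn ++ rep T1.lab' .p))))) ++ Sg.e :: (rep T1.tag .b ++
          Sg.y :: Sg.x :: (rep T2.tag .a ++ (Sg.d :: (rep T2.lab' .o ++ (T2.inn ++
          (rep T2.lab' .p ++ Sg.e :: (rep T2.tag .b ++ Sg.y ::
          (T3.word ++ (cls c l ++ v)))))))))  := by
          rw [word_dec T1, word_dec T2]
          simp
        rw [← this]
        exact hall)
    have e2 := noE2 hE (u := u ++ (opn c l ++ (T1.word ++ (T2.word ++ Sg.x :: (rep T3.tag .a ++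
        Sg.d :: (rep T3.lab' .o ++ (T3.inn ++ (rep T3.lab' .p ++ [Sg.e])))))))) (m := T3.tag)
        (l := l) (c := c) (v := v) (by
        have : u ++ ((opn c l ++ (T1.word ++ (T2.word ++ (T3.word ++ cls c l)))) ++ v) =
          (u ++ (opn c l ++ (T1.word ++ (T2.word ++ Sg.x :: (rep T3.tag .a ++
          Sg.d :: (rep T3.lab' .o ++ (T3.inn ++ (rep T3.lab' .p ++ [Sg.e])))))))) ++
          (rep T3.tag .b ++ Sg.y :: (rep c .p ++ Sg.e :: (rep l .b ++ Sg.y :: v))) := by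
          rw [word_dec T3]
          simp [cls]
        rw [← this]
        exact hall)
    exact ⟨e1.1, e1.2, e3.1, e3.2, e2.1, e2.2⟩

open Classical in
/-- The number of pairs with a short tree. -/
noncomputable def Cnt (R : Sg → S → S → Prop) (m : ℕ) : ℕ :=
  (Finset.univ.filter (fun x : S × S => ∃ T : Tr, Pth R T.word x.1 x.2 ∧
    T.word.length ≤ m)).card

theorem Cnt_le (R : Sg → S → S → Prop) (m : ℕ) :
    Cnt R m ≤ Fintype.card S * Fintype.card S := by
  classical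
  rw [← Fintype.card_prod]
  exact Finset.card_le_univ _

theorem Cnt_lt {R : Sg → S → S → Prop} {T : Tr} {p q : S} (h : MinT R T p q) {m : ℕ}
    (hm : m < T.word.length) : Cnt R m + 1 ≤ Cnt R T.word.length := by
  classical
  apply Finset.card_lt_card
  rw [Finset.ssubset_iff_of_subset]
  · refine ⟨(p, q), ?_, ?_⟩
    · simp only [Finset.mem_filter, Finset.mem_univ, true_and]
      exact ⟨T, h.1, le_refl _⟩
    · simp only [Finset.mem_filter, Finset.mem_univ, true_and]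
      rintro ⟨T', h1, h2⟩
      have := h.2 T' h1
      omega
  · intro x hx
    simp only [Finset.mem_filter, Finset.mem_univ, true_and] at hx ⊢
    obtain ⟨T', h1, h2⟩ := hx
    exact ⟨T', h1, by omega⟩

theorem Cnt_pos {R : Sg → S → S → Prop} {T : Tr} {p q : S} (h : MinT R T p q) :
    1 ≤ Cnt R T.word.length := by
  have h0 : 0 < T.word.length := by rw [word_dec]; simp
  have := Cnt_lt h h0
  omega

/-- The bounds. -/
def XX (n : ℕ) : ℕ → ℕ
  | 0 => 4 + 2 * n + 2 * n ^ 2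
  | j + 1 => 4 + 2 * n + 2 * n ^ 2 + 2 * n ^ 2 * XX n j

theorem XX_ge (n j : ℕ) : 4 + 2 * n + 2 * n ^ 2 ≤ XX n j := by
  cases j with
  | zero => exact le_refl _
  | succ j => rw [XX]; exact Nat.le_add_right _ _

theorem size_bound {R : Sg → S → S → Prop} {s0 f : S} (hE : ∀ w, Pth R w s0 f → ¬ Er w) (j : ℕ) :
    ∀ (T : Tr) (p q : S) (u v : List Sg), MinT R T p q → Pth R u s0 p → Pth R v q f →
      T.tag < 2 ^ j → T.tag < Fintype.card S →
      T.word.length ≤ Cnt R T.word.length * XX (Fintype.card S) j := by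
  induction j with
  | zero =>
    intro T p q u v hT hu hv h1 h2
    cases T with
    | leaf c l =>
      have h3 := (minT_lab hT).1
      have h4 : (Tr.leaf c l).word.length = 2 * l + 2 * c + 4 := by
        rw [Tr.word, List.length_append, len_opn, len_cls]; ring
      have h5 := XX_ge (Fintype.card S) 0
      have h6 := Cnt_pos hT
      have h7 : c < Fintype.card S * Fintype.card S := h3
      have h8 : l < Fintype.card S := h2
      calc (Tr.leaf c l).word.length ≤ XX (Fintype.card S) 0 := by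
            rw [h4]; nlinarith
        _ = 1 * XX (Fintype.card S) 0 := (Nat.one_mul _).symm
        _ ≤ _ := Nat.mul_le_mul_right _ h6
    | node c l T1 T2 T3 =>
      exfalso
      obtain ⟨p1, p2, p3, p4, _, _, _, h3, _⟩ := node_dec hE hT hu hv
      have : l < 2 ^ 0 := h1
      simp at this
      omega
  | succ j ih =>
    intro T
    induction T with
    | leaf c l =>
      intro p q u v hT hu hv h1 h2
      have h3 := (minT_lab hT).1
      have h4 : (Tr.leaf c l).word.length = 2 * l + 2 * c + 4 := by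
        rw [Tr.word, List.length_append, len_opn, len_cls]; ring
      have h5 := XX_ge (Fintype.card S) (j + 1)
      have h6 := Cnt_pos hT
      have h7 : c < Fintype.card S * Fintype.card S := h3
      have h8 : l < Fintype.card S := h2
      calc (Tr.leaf c l).word.length ≤ XX (Fintype.card S) (j + 1) := by
            rw [h4]; nlinarith
        _ = 1 * XX (Fintype.card S) (j + 1) := (Nat.one_mul _).symm
        _ ≤ _ := Nat.mul_le_mul_right _ h6
    | node c l T1 T2 T3 _ ih2 _ =>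
      intro p q u v hT hu hv h1 h2
      obtain ⟨p1, p2, p3, p4, ⟨m1, u1, v1, hu1, hv1⟩, ⟨m2, u2, v2, hu2, hv2⟩,
        ⟨m3, u3, v3, hu3, hv3⟩, h3, h4, h5, h6, h7, h8⟩ := node_dec hE hT hu hv
      have hl : l < 2 ^ (j + 1) := h1
      have hln : l < Fintype.card S := h2
      have hpow : 2 ^ (j + 1) = 2 * 2 ^ j := by rw [pow_succ]; ring
      have hc : c < Fintype.card S * Fintype.card S := (minT_lab hT).1
      have b1 := ih T1 p1 p2 u1 v1 m1 hu1 hv1 (by omega) h4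
      have b3 := ih T3 p3 p4 u3 v3 m3 hu3 hv3 (by omega) h8
      have b2 := ih2 p2 p3 u2 v2 m2 hu2 hv2 (by omega) h6
      have hlen : (Tr.node c l T1 T2 T3).word.length =
          2 * l + 2 * c + 4 + T1.word.length + T2.word.length + T3.word.length := by
        rw [word_node]
        simp only [List.length_append, len_opn, len_cls]
        ring
      have hcnt := Cnt_lt hT (m := T2.word.length) (by omega)
      have c1 := Nat.mul_le_mul_right (XX (Fintype.card S) j) (Cnt_le R T1.word.length)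
      have c3 := Nat.mul_le_mul_right (XX (Fintype.card S) j) (Cnt_le R T3.word.length)
      have hX : XX (Fintype.card S) (j + 1) = 4 + 2 * Fintype.card S + 2 * Fintype.card S ^ 2 +
        2 * Fintype.card S ^ 2 * XX (Fintype.card S) j := rfl
      calc (Tr.node c l T1 T2 T3).word.length
          ≤ XX (Fintype.card S) (j + 1) + T2.word.length := by
            rw [hlen, hX]
            nlinarith
        _ ≤ XX (Fintype.card S) (j + 1) + Cnt R T2.word.length * XX (Fintype.card S) (j + 1) :=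
            Nat.add_le_add_left b2 _
        _ = (Cnt R T2.word.length + 1) * XX (Fintype.card S) (j + 1) := by ring
        _ ≤ _ := Nat.mul_le_mul_right _ hcnt

/-- The bound for the length of short words. -/
def BB (n j : ℕ) : ℕ := 10 * n + 10 + (4 + 4 * n ^ 2 + 3 * (n ^ 2 * XX n j))

theorem exists_short {R : Sg → S → S → Prop} {s0 f : S} {j : ℕ} (hj : Fintype.card S ≤ 2 ^ j)
    {w : List Sg} (hw : w ∈ LL) (h : Pth R w s0 f) :
    ∃ w' ∈ LL, Pth R w' s0 f ∧ w'.length ≤ BB (Fintype.card S) j := by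
  by_cases hE : ∃ w, Pth R w s0 f ∧ Er w
  · obtain ⟨w, h1, h2⟩ := hE
    obtain ⟨w', h3, h4, h5⟩ := Er_short h2 h1
    exact ⟨w', Or.inr h3, h4, by rw [BB]; omega⟩
  · have hE' : ∀ w, Pth R w s0 f → ¬ Er w := fun w h1 h2 => hE ⟨w, h1, h2⟩
    have hT : ∃ k, ∃ T : Tr, Pth R T.word s0 f ∧ T.word.length = k := by
      rcases hw with ⟨T, rfl⟩ | hw
      · exact ⟨_, T, h, rfl⟩
      · exact absurd hw (hE' _ h)
    classical
    obtain ⟨T, hT1, hT2⟩ := Nat.find_spec hT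
    have hmin : MinT R T s0 f := by
      refine ⟨hT1, fun T' hT' => ?_⟩
      rw [hT2]
      exact Nat.find_min' hT ⟨T', hT', rfl⟩
    refine ⟨T.word, Or.inl ⟨T, rfl⟩, hT1, ?_⟩
    obtain ⟨hc, hl⟩ := minT_lab hmin
    cases T with
    | leaf c l =>
      have hc' : c < Fintype.card S * Fintype.card S := hc
      have hl' : l < Fintype.card S * Fintype.card S := hl
      have h4 : (Tr.leaf c l).word.length = 2 * l + 2 * c + 4 := by
        rw [Tr.word, List.length_append, len_opn, len_cls]; ring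
      rw [h4, BB]
      nlinarith
    | node c l T1 T2 T3 =>
      have hc' : c < Fintype.card S * Fintype.card S := hc
      have hl' : l < Fintype.card S * Fintype.card S := hl
      obtain ⟨p1, p2, p3, p4, ⟨m1, u1, v1, hu1, hv1⟩, ⟨m2, u2, v2, hu2, hv2⟩,
        ⟨m3, u3, v3, hu3, hv3⟩, h3, h4, h5, h6, h7, h8⟩ :=
        node_dec hE' hmin (u := []) (v := []) rfl rfl
      have b1 := size_bound hE' j T1 p1 p2 u1 v1 m1 hu1 hv1 (by omega) h4
      have b3 := size_bound hE' j T3 p3 p4 u3 v3 m3 hu3 hv3 (by omega) h8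
      have b2 := size_bound hE' j T2 p2 p3 u2 v2 m2 hu2 hv2 (by omega) h6
      have c1 := Nat.mul_le_mul_right (XX (Fintype.card S) j) (Cnt_le R T1.word.length)
      have c2 := Nat.mul_le_mul_right (XX (Fintype.card S) j) (Cnt_le R T2.word.length)
      have c3 := Nat.mul_le_mul_right (XX (Fintype.card S) j) (Cnt_le R T3.word.length)
      have hlen : (Tr.node c l T1 T2 T3).word.length =
          2 * l + 2 * c + 4 + T1.word.length + T2.word.length + T3.word.length := by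
        rw [word_node]
        simp only [List.length_append, len_opn, len_cls]
        ring
      rw [hlen, BB]
      nlinarith

end Pool.Agent.K1H73.Qrt
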