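import Pool.Agent.K1H73.QrtReal
import Pool.Agent.K1H73.QrtShort
import Pool.Agent.Helper178.GramLfp

set_option linter.unusedVariables false
set_option linter.unusedSimpArgs false

namespace Pool.Agent.K1H73.Qrt

open Symbol Pool.Agent.Helper178.Gram

/-- Words of binary trees over the letters `0` (opening), `1` (closing) and `2` (leaf). -/
inductive DT : List (Fin 3) → Prop
  | leaf : DT [2]
  | node {u v : List (Fin 3)} (hu : DT u) (hv : DT v) : DT (0 :: (u ++ (v ++ [1])))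

/-- The language of binary trees. -/
def DD : Language (Fin 3) := {w | DT w}

/-- The rules. -/
def drl : List (ContextFreeRule (Fin 3) Unit) := [
  ⟨(), [terminal 2]⟩,
  ⟨(), [terminal 0, nonterminal (), nonterminal (), terminal 1]⟩]

/-- The grammar. -/
def dgr : ContextFreeGrammar (Fin 3) where
  NT := Unit
  initial := ()
  rules := drl.toFinset

theorem mem_dgr (r : ContextFreeRule (Fin 3) Unit) : r ∈ dgr.rules ↔ r ∈ drl := by
  show r ∈ drl.toFinset ↔ _
  exact List.mem_toFinset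

theorem DD_contextFree : DD.IsContextFree := by
  refine ⟨dgr, ?_⟩
  ext w
  rw [ContextFreeGrammar.mem_language_iff]
  constructor
  · intro h
    have h1 := sound (g := dgr) (I := fun _ w => DT w) ?_ h
    · obtain ⟨w1, w2, rfl, h2, h3⟩ := h1
      have h3' : w2 = [] := h3
      subst h3'
      rw [List.append_nil]
      exact h2
    · intro r hr w hw
      have hr' := (mem_dgr r).mp hr
      simp only [drl, List.mem_cons, List.not_mem_nil, or_false] at hr'
      rcases hr' with rfl | rfl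
      · obtain ⟨_, rfl, rfl⟩ := hw
        exact .leaf
      · obtain ⟨_, rfl, u, _, rfl, hu, v, _, rfl, hv, _, rfl, rfl⟩ := hw
        exact .node hu hv
  · intro h
    have key : ∀ w, DT w → Der dgr () w := by
      intro w h
      induction h with
      | leaf =>
        exact complete (g := dgr) (r := ⟨(), [terminal 2]⟩)
          ((mem_dgr _).mpr (List.mem_cons_self ..)) ⟨[], rfl, rfl⟩
      | node hu hv ihu ihv =>
        exact complete (g := dgr)
          (r := ⟨(), [terminal 0, nonterminal (), nonterminal (), terminal 1]⟩)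
          ((mem_dgr _).mpr (List.mem_cons_of_mem _ (List.mem_cons_self ..)))
          ⟨_, rfl, _, _, rfl, ihu, _, _, rfl, ihv, _, rfl, rfl⟩
    exact key w h

/-- The automaton measuring the depth. -/
def dst (n : ℕ) (a : Fin 3) (i j : Fin (n + 1)) : Prop :=
  (a = 0 ∧ j.val = i.val + 1) ∨ (a = 1 ∧ i.val = j.val + 1) ∨ (a = 2 ∧ i.val = n ∧ j.val = n)

theorem dlow {n : ℕ} {w : List (Fin 3)} (hw : DT w) : ∀ {i j : Fin (n + 1)},
    Pth (dst n) w i j → j = i ∧ 2 ^ (n - i.val) ≤ w.length := by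
  induction hw with
  | leaf =>
    rintro i j ⟨s, h1, h2⟩
    have h2' : s = j := h2
    subst h2'
    rcases h1 with ⟨h, _⟩ | ⟨h, _⟩ | ⟨_, h1, h2⟩
    · exact absurd h (by decide)
    · exact absurd h (by decide)
    · refine ⟨Fin.ext (by omega), ?_⟩
      rw [h1, Nat.sub_self]
      simp
  | @node u v hu hv ihu ihv =>
    rintro i j ⟨s, h1, h2⟩
    obtain ⟨s1, h3, h4⟩ := Pth_append.mp h2
    obtain ⟨s2, h5, s3, h6, h7⟩ := Pth_append.mp h4
    have h7' : s3 = j := h7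
    subst h7'
    obtain ⟨rfl, h8⟩ := ihu h3
    obtain ⟨rfl, h9⟩ := ihv h5
    have h10 : s2.val = i.val + 1 := by
      rcases h1 with ⟨_, h⟩ | ⟨h, _⟩ | ⟨h, _⟩
      · exact h
      · exact absurd h (by decide)
      · exact absurd h (by decide)
    have h11 : s2.val = s3.val + 1 := by
      rcases h6 with ⟨h, _⟩ | ⟨_, h⟩ | ⟨h, _⟩
      · exact absurd h (by decide)
      · exact h
      · exact absurd h (by decide)
    refine ⟨Fin.ext (by omega), ?_⟩
    have h12 : n - i.val = (n - s2.val) + 1 := by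
      have := s2.isLt
      omega
    rw [h12, pow_succ]
    simp only [List.length_cons, List.length_append, List.length_nil]
    omega

theorem dex (n : ℕ) : ∀ k, ∀ i : Fin (n + 1), i.val + k = n → ∃ w, DT w ∧ Pth (dst n) w i i := by
  intro k
  induction k with
  | zero =>
    intro i hi
    exact ⟨[2], .leaf, i, Or.inr (Or.inr ⟨rfl, by omega, by omega⟩), rfl⟩
  | succ k ih =>
    intro i hi
    obtain ⟨w, h1, h2⟩ := ih ⟨i.val + 1, by omega⟩ (by simp only; omega)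
    refine ⟨0 :: (w ++ (w ++ [1])), .node h1 h1, ⟨i.val + 1, by omega⟩, Or.inl ⟨rfl, rfl⟩,
      Pth_append.mpr ⟨_, h2, Pth_append.mpr ⟨_, h2, i, Or.inr (Or.inl ⟨rfl, rfl⟩), rfl⟩⟩⟩

section transducer

variable {A B : Type}

theorem run_split {M : Transducer A B} {s t : M.σ} {u : List A} {w : List B}
    (h : M.Run s u w t) : ∀ u1 u2, u = u1 ++ u2 → ∃ r w1 w2, w = w1 ++ w2 ∧
      M.Run s u1 w1 r ∧ M.Run r u2 w2 t := by
  induction h with
  | nil s =>
    intro u1 u2 h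
    obtain ⟨rfl, rfl⟩ := List.append_eq_nil_iff.mp h.symm
    exact ⟨s, [], [], rfl, .nil s, .nil s⟩
  | @cons s t r a b v w h1 h2 ih =>
    intro u1 u2 h
    cases a with
    | none =>
      obtain ⟨r', w1, w2, rfl, h3, h4⟩ := ih u1 u2 h
      exact ⟨r', b.toList ++ w1, w2, by simp, .cons (a := none) h1 h3, h4⟩
    | some a =>
      cases u1 with
      | nil =>
        refine ⟨s, [], b.toList ++ w, rfl, .nil s, ?_⟩
        rw [List.nil_append] at h
        rw [← h]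
        exact .cons h1 h2
      | cons a' u1 =>
        have h5 : a :: v = a' :: (u1 ++ u2) := h
        obtain ⟨rfl, h6⟩ := List.cons.inj h5
        obtain ⟨r', w1, w2, rfl, h3, h4⟩ := ih u1 u2 h6
        exact ⟨r', b.toList ++ w1, w2, by simp, .cons (a := some a) h1 h3, h4⟩

theorem run_letter {M : Transducer A B} {s t : M.σ} {u : List A} {w : List B}
    (h : M.Run s u w t) : ∀ a, u = [a] → ∃ s' t' b w1 w2, w = w1 ++ (b.toList ++ w2) ∧
      M.Run s [] w1 s' ∧ t' ∈ M.step s' (some a) b ∧ M.Run t' [] w2 t := by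
  induction h with
  | nil s => intro a h; exact absurd h (by simp)
  | @cons s t r a b v w h1 h2 ih =>
    intro a' h
    cases a with
    | none =>
      obtain ⟨s', t', b', w1, w2, rfl, h3, h4, h5⟩ := ih a' h
      exact ⟨s', t', b', b.toList ++ w1, w2, by simp, .cons (a := none) h1 h3, h4, h5⟩
    | some a =>
      have h5 : a :: v = a' :: [] := h
      obtain ⟨rfl, rfl⟩ := List.cons.inj h5
      exact ⟨s, t, b, [], w, rfl, .nil s, h1, h2⟩

end transducer

section product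

variable (M : Transducer Sg (Fin 3)) (n : ℕ)

/-- The product of a transducer and the depth automaton. -/
def PR (a : Sg) (x y : M.σ × Fin (n + 1)) : Prop :=
  ∃ v, M.Run x.1 [a] v y.1 ∧ Pth (dst n) v x.2 y.2

/-- Silent moves. -/
def PS (x y : M.σ × Fin (n + 1)) : Prop :=
  ∃ b, y.1 ∈ M.step x.1 none b ∧ Pth (dst n) b.toList x.2 y.2

variable {M n}

theorem PR_of_run {w : List Sg} (hw : w ≠ []) : ∀ {x y : M.σ × Fin (n + 1)} {v : List (Fin 3)},
    M.Run x.1 w v y.1 → Pth (dst n) v x.2 y.2 → Pth (PR M n) w x y := by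
  induction w with
  | nil => exact absurd rfl hw
  | cons a w ih =>
    intro x y v h1 h2
    by_cases hw' : w = []
    · subst hw'
      exact ⟨y, ⟨v, h1, h2⟩, rfl⟩
    · obtain ⟨r, w1, w2, rfl, h3, h4⟩ := run_split h1 [a] w rfl
      obtain ⟨i, h5, h6⟩ := Pth_append.mp h2
      exact ⟨(r, i), ⟨w1, h3, h5⟩, ih hw' h4 h6⟩

theorem PS_of_run {s t : M.σ} {u : List Sg} {v : List (Fin 3)} (h : M.Run s u v t) : u = [] →
    ∀ {i j : Fin (n + 1)}, Pth (dst n) v i j → ∃ k, Rp (PS M n) k (s, i) (t, j) := by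
  induction h with
  | nil s =>
    intro _ i j h
    have : i = j := h
    subst this
    exact ⟨0, rfl⟩
  | @cons s t r a b v w h1 h2 ih =>
    intro hu i j h
    cases a with
    | some a => exact absurd hu (by simp)
    | none =>
      obtain ⟨i', h3, h4⟩ := Pth_append.mp h
      obtain ⟨k, hk⟩ := ih hu h4
      exact ⟨k + 1, (t, i'), ⟨b, h1, h3⟩, hk⟩

theorem run_of_PS {k : ℕ} : ∀ {x y : M.σ × Fin (n + 1)}, Rp (PS M n) k x y →
    ∃ v, M.Run x.1 [] v y.1 ∧ Pth (dst n) v x.2 y.2 ∧ v.length ≤ k := by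
  induction k with
  | zero =>
    intro x y h
    have : x = y := h
    subst this
    exact ⟨[], .nil _, rfl, le_refl _⟩
  | succ k ih =>
    rintro x y ⟨z, ⟨b, h1, h2⟩, h3⟩
    obtain ⟨v, h4, h5, h6⟩ := ih h3
    refine ⟨b.toList ++ v, .cons (a := none) h1 h4, Pth_append.mpr ⟨_, h2, h5⟩, ?_⟩
    rw [List.length_append]
    have : b.toList.length ≤ 1 := by cases b <;> simp
    omega

variable [Fintype (M.σ × Fin (n + 1))]

theorem PR_bound {a : Sg} {x y : M.σ × Fin (n + 1)} (h : PR M n a x y) :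
    ∃ v, M.Run x.1 [a] v y.1 ∧ Pth (dst n) v x.2 y.2 ∧
      v.length ≤ 2 * Fintype.card (M.σ × Fin (n + 1)) + 1 := by
  obtain ⟨v, h1, h2⟩ := h
  obtain ⟨s', t', b, w1, w2, rfl, h3, h4, h5⟩ := run_letter h1 a rfl
  obtain ⟨i1, h6, h7⟩ := Pth_append.mp h2
  obtain ⟨i2, h8, h9⟩ := Pth_append.mp h7
  obtain ⟨k1, hk1⟩ := PS_of_run h3 rfl h6
  obtain ⟨k2, hk2⟩ := PS_of_run h5 rfl h9
  obtain ⟨m1, hm1, _, hm1'⟩ := reach_short hk1
  obtain ⟨m2, hm2, _, hm2'⟩ := reach_short hk2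
  obtain ⟨v1, hv1, hv1', hv1''⟩ := run_of_PS hm1'
  obtain ⟨v2, hv2, hv2', hv2''⟩ := run_of_PS hm2'
  refine ⟨v1 ++ (b.toList ++ v2), ?_, Pth_append.mpr ⟨_, hv1', Pth_append.mpr ⟨_, h8, hv2'⟩⟩, ?_⟩
  · have h10 : M.Run s' [a] (b.toList ++ v2) y.1 := .cons (a := some a) h4 hv2
    have := hv1.trans h10
    simpa using this
  · rw [List.length_append, List.length_append]
    have : b.toList.length ≤ 1 := by cases b <;> simp
    omega

theorem run_of_PR {w : List Sg} : ∀ {x y : M.σ × Fin (n + 1)}, Pth (PR M n) w x y →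
    ∃ v, M.Run x.1 w v y.1 ∧ Pth (dst n) v x.2 y.2 ∧
      v.length ≤ w.length * (2 * Fintype.card (M.σ × Fin (n + 1)) + 1) := by
  induction w with
  | nil =>
    intro x y h
    have : x = y := h
    subst this
    exact ⟨[], .nil _, rfl, by simp⟩
  | cons a w ih =>
    rintro x y ⟨z, h1, h2⟩
    obtain ⟨v1, h3, h4, h5⟩ := PR_bound h1
    obtain ⟨v2, h6, h7, h8⟩ := ih h2
    refine ⟨v1 ++ v2, h3.trans h6, Pth_append.mpr ⟨_, h4, h7⟩, ?_⟩
    rw [List.length_append, List.length_cons, Nat.succ_mul]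
    omega

end product

theorem LL_ne_nil {w : List Sg} (h : w ∈ LL) : w ≠ [] := by
  rintro rfl
  rcases h with ⟨T, hT⟩ | ⟨u, v, l, c, m, _, h⟩ | ⟨u, v, l, c, m, _, h⟩ | ⟨u, v, m, k, _, h⟩
  · rw [word_dec] at hT; simp at hT
  · simp at h
  · simp at h
  · simp at h

/-- The basic inequality. -/
theorem basic {M : Transducer Sg (Fin 3)} (hM : DD = M.image LL) (n : ℕ)
    [Fintype (M.σ × Fin (n + 1))] {j : ℕ} (hj : Fintype.card (M.σ × Fin (n + 1)) ≤ 2 ^ j) :
    2 ^ n ≤ BB (Fintype.card (M.σ × Fin (n + 1))) j *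
      (2 * Fintype.card (M.σ × Fin (n + 1)) + 1) := by
  obtain ⟨v, hv, hv'⟩ := dex n n ⟨0, by omega⟩ (by simp)
  have h1 : v ∈ M.image LL := by rw [← hM]; exact hv
  obtain ⟨w, hw, s, hs, t, ht, hr⟩ := h1
  have h2 := PR_of_run (LL_ne_nil hw) (x := (s, ⟨0, by omega⟩)) (y := (t, ⟨0, by omega⟩)) hr hv'
  obtain ⟨w', hw', h3, h4⟩ := exists_short hj hw h2
  obtain ⟨v', h5, h6, h7⟩ := run_of_PR h3
  have h8 : v' ∈ DD := by
    rw [hM]
    exact ⟨w', hw', s, hs, t, ht, h5⟩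
  obtain ⟨_, h9⟩ := dlow h8 h6
  have h10 : 2 ^ n ≤ v'.length := by simpa using h9
  exact h10.trans (h7.trans (Nat.mul_le_mul_right _ h4))

theorem XX_bound (m : ℕ) {N : ℕ} (hN : N ≤ 2 ^ m) (j : ℕ) :
    XX N j ≤ 2 ^ ((2 * m + 4) * (j + 1)) := by
  have h1 : 4 + 2 * N + 2 * N ^ 2 ≤ 2 ^ (2 * m + 3) := by
    have h2 : N ^ 2 ≤ 2 ^ m * 2 ^ m := by rw [pow_two]; exact Nat.mul_le_mul hN hN
    have h3 : 1 ≤ 2 ^ m := Nat.one_le_two_pow
    have h4 : 2 ^ (2 * m + 3) = 8 * (2 ^ m * 2 ^ m) := by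
      rw [pow_add, two_mul, pow_add]; ring
    rw [h4]
    nlinarith
  induction j with
  | zero =>
    rw [XX]
    exact h1.trans (Nat.pow_le_pow_right (by norm_num) (by omega))
  | succ j ih =>
    rw [XX]
    have h5 : 1 ≤ 2 ^ ((2 * m + 4) * (j + 1)) := Nat.one_le_two_pow
    have h6 : 2 * N ^ 2 ≤ 2 ^ (2 * m + 3) := by omega
    calc 4 + 2 * N + 2 * N ^ 2 + 2 * N ^ 2 * XX N j
        ≤ 2 ^ (2 * m + 3) * 2 ^ ((2 * m + 4) * (j + 1)) +
          2 ^ (2 * m + 3) * 2 ^ ((2 * m + 4) * (j + 1)) := by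
          apply Nat.add_le_add
          · calc _ ≤ 2 ^ (2 * m + 3) * 1 := by rw [Nat.mul_one]; exact h1
              _ ≤ _ := Nat.mul_le_mul_left _ h5
          · exact Nat.mul_le_mul h6 ih
      _ = 2 ^ ((2 * m + 4) * (j + 1 + 1)) := by
          have : (2 * m + 4) * (j + 1 + 1) = (2 * m + 3) + (2 * m + 4) * (j + 1) + 1 := by ring
          rw [this, pow_succ, pow_add]
          ring

theorem BB_bound (m : ℕ) {N : ℕ} (hN : N ≤ 2 ^ m) :
    BB N m * (2 * N + 1) ≤ 2 ^ ((m + 2) * (2 * m + 5) + 1) := by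
  have h3 : 1 ≤ 2 ^ m := Nat.one_le_two_pow
  have h2 : N ^ 2 ≤ 2 ^ m * 2 ^ m := by rw [pow_two]; exact Nat.mul_le_mul hN hN
  have hX := XX_bound m hN m
  have hX1 : 1 ≤ 2 ^ ((2 * m + 4) * (m + 1)) := Nat.one_le_two_pow
  have h4 : 1 ≤ 2 ^ m * 2 ^ m := Nat.mul_le_mul h3 h3
  have h5 : 2 ^ m ≤ 2 ^ m * 2 ^ m := Nat.le_mul_of_pos_right _ h3
  have h6 : BB N m ≤ 32 * ((2 ^ m * 2 ^ m) * 2 ^ ((2 * m + 4) * (m + 1))) := by
    rw [BB]
    have h7 : N ^ 2 * XX N m ≤ (2 ^ m * 2 ^ m) * 2 ^ ((2 * m + 4) * (m + 1)) :=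
      Nat.mul_le_mul h2 hX
    have h8 : 2 ^ m * 2 ^ m ≤ (2 ^ m * 2 ^ m) * 2 ^ ((2 * m + 4) * (m + 1)) :=
      Nat.le_mul_of_pos_right _ hX1
    omega
  have h9 : 2 * N + 1 ≤ 4 * 2 ^ m := by omega
  calc BB N m * (2 * N + 1)
      ≤ (32 * ((2 ^ m * 2 ^ m) * 2 ^ ((2 * m + 4) * (m + 1)))) * (4 * 2 ^ m) :=
        Nat.mul_le_mul h6 h9
    _ = 2 ^ (5 + (m + m) + (2 * m + 4) * (m + 1) + 2 + m) := by
        simp only [pow_add]
        ring
    _ ≤ 2 ^ ((m + 2) * (2 * m + 5) + 1) := by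
        apply Nat.pow_le_pow_right (by norm_num)
        nlinarith

theorem quad_lt (s : ℕ) : (2 * s + 13) * (4 * s + 27) + 1 < 2 ^ (s + 10) := by
  induction s with
  | zero => norm_num
  | succ s ih =>
    have : 2 ^ (s + 1 + 10) = 2 * 2 ^ (s + 10) := by
      have h : s + 1 + 10 = (s + 10) + 1 := by ring
      rw [h, pow_succ']
    rw [this]
    nlinarith

/-- The language of binary trees does not lie in the cone. -/
theorem not_inCone : ¬ InCone LL DD := by
  rintro ⟨M, hM⟩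
  have := M.fin
  have := Fintype.ofFinite M.σ
  obtain ⟨s, hs⟩ : ∃ s, Fintype.card M.σ ≤ 2 ^ s := ⟨_, Nat.lt_two_pow_self.le⟩
  have hcard : Fintype.card (M.σ × Fin (2 ^ (s + 10) + 1)) ≤ 2 ^ (2 * s + 11) := by
    rw [Fintype.card_prod, Fintype.card_fin]
    calc Fintype.card M.σ * (2 ^ (s + 10) + 1) ≤ 2 ^ s * (2 ^ (s + 10) + 2 ^ (s + 10)) :=
          Nat.mul_le_mul hs (Nat.add_le_add_left Nat.one_le_two_pow _)
      _ = 2 ^ (2 * s + 11) := by
          have : 2 * s + 11 = s + (s + 10) + 1 := by ring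
          rw [this, pow_succ, pow_add]
          ring
  have h1 := (basic hM (2 ^ (s + 10)) hcard).trans (BB_bound (2 * s + 11) hcard)
  have h2 := (Nat.pow_le_pow_iff_right (by norm_num : 1 < 2)).mp h1
  have h3 := quad_lt s
  have h4 : (2 * s + 11 + 2) * (2 * (2 * s + 11) + 5) + 1 = (2 * s + 13) * (4 * s + 27) + 1 := by
    ring
  omega

end Pool.Agent.K1H73.Qrt
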