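import Pool.Agent.K1H73.QrtDefs
import Pool.Agent.Helper178.GramLfp

set_option linter.unusedVariables false
set_option linter.unusedSimpArgs false

namespace Pool.Agent.K1H73.Qrt

open Symbol Pool.Agent.Helper178.Gram

/-- The language of a linear system with languages as labels. -/
inductive SL {α E V : Type} (src tgt : E → V) (p q : E → Language α) : V → V → List α → Prop
  | nil (v : V) : SL src tgt p q v v []
  | cons {s v : V} {a w b : List α} (e : E) (hs : src e = s) (ha : a ∈ p e)
      (h : SL src tgt p q (tgt e) v w) (hb : b ∈ q e) : SL src tgt p q s v (a ++ (w ++ b))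

/-- The levels. -/
def QL (α : Type) : ℕ → Set (Language α)
  | 0 => {L | L = {[]} ∨ ∃ a, L = {[a]}}
  | k + 1 => {L | ∃ (E V : Type) (_ : Finite E) (src tgt : E → V) (p q : E → Language α)
      (i f : V), (∀ e, p e ∈ QL α k) ∧ (∀ e, q e ∈ QL α k) ∧
      ∀ w, w ∈ L ↔ SL src tgt p q i f w}

theorem eps_mem {α : Type} (k : ℕ) : ({[]} : Language α) ∈ QL α k := by
  induction k with
  | zero => exact Or.inl rfl
  | succ k ih =>
    refine ⟨Empty, Unit, inferInstance, fun e => e.elim, fun e => e.elim, fun e => e.elim,
      fun e => e.elim, (), (), fun e => e.elim, fun e => e.elim, fun w => ⟨?_, ?_⟩⟩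
    · intro h
      have : w = [] := h
      subst this
      exact .nil _
    · intro h
      cases h with
      | nil => exact rfl
      | cons e _ _ _ _ => exact e.elim

theorem QL_succ {α : Type} {k : ℕ} {L : Language α} (h : L ∈ QL α k) : L ∈ QL α (k + 1) := by
  refine ⟨Unit, Bool, inferInstance, fun _ => false, fun _ => true, fun _ => L,
    fun _ => {[]}, false, true, fun _ => h, fun _ => eps_mem k, fun w => ⟨?_, ?_⟩⟩
  · intro hw
    have := SL.cons (src := fun _ : Unit => false) (tgt := fun _ => true) (p := fun _ => L)
      (q := fun _ => {[]}) (s := false) (v := true) (a := w) (w := []) (b := []) () rfl hw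
      (.nil _) rfl
    simpa using this
  · intro hw
    cases hw with
    | cons e hs ha h hb =>
      cases h with
      | nil =>
        have : _ = [] := hb
        subst this
        simpa using ha
      | cons e' hs' _ _ _ => exact absurd hs' (by simp)

theorem QL_mono {α : Type} {j k : ℕ} (hjk : j ≤ k) {L : Language α} (h : L ∈ QL α j) :
    L ∈ QL α k := by
  induction hjk with
  | refl => exact h
  | step _ ih => exact QL_succ ih

theorem subst_eps {α β : Type} (s : α → Language β) : subst {[]} s = {[]} := by
  ext w
  constructor
  · rintro ⟨u, hu, hw⟩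
    have : u = [] := hu
    subst this
    exact (by simpa using hw : w = [])
  · intro hw
    have : w = [] := hw
    subst this
    exact ⟨[], rfl, by simp⟩

theorem subst_letter {α β : Type} (s : α → Language β) (a : α) : subst {[a]} s = s a := by
  ext w
  constructor
  · rintro ⟨u, hu, hw⟩
    have : u = [a] := hu
    subst this
    simpa using hw
  · intro hw
    exact ⟨[a], rfl, by simpa using hw⟩

theorem SL_subst {α β E V : Type} {src tgt : E → V} {p q : E → Language α}
    (s : α → Language β) {i f : V} {u : List α} (h : SL src tgt p q i f u) :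
    ∀ w, w ∈ (u.map s).prod →
      SL src tgt (fun e => subst (p e) s) (fun e => subst (q e) s) i f w := by
  induction h with
  | nil v =>
    intro w hw
    have : w = [] := by simpa using hw
    subst this
    exact .nil _
  | cons e hs ha h hb ih =>
    intro w hw
    rw [List.map_append, List.map_append, List.prod_append, List.prod_append] at hw
    obtain ⟨w1, h1, w23, h23, rfl⟩ := Language.mem_mul.mp hw
    obtain ⟨w2, h2, w3, h3, rfl⟩ := Language.mem_mul.mp h23
    exact .cons e hs ⟨_, ha, h1⟩ (ih w2 h2) ⟨_, hb, h3⟩

theorem SL_subst' {α β E V : Type} {src tgt : E → V} {p q : E → Language α}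
    (s : α → Language β) {i f : V} {w : List β}
    (h : SL src tgt (fun e => subst (p e) s) (fun e => subst (q e) s) i f w) :
    ∃ u, SL src tgt p q i f u ∧ w ∈ (u.map s).prod := by
  induction h with
  | nil v => exact ⟨[], .nil _, by simp⟩
  | cons e hs ha h hb ih =>
    obtain ⟨u, hu, hw⟩ := ih
    obtain ⟨a', ha', ha''⟩ := ha
    obtain ⟨b', hb', hb''⟩ := hb
    refine ⟨a' ++ (u ++ b'), .cons e hs ha' hu hb', ?_⟩
    rw [List.map_append, List.map_append, List.prod_append, List.prod_append]
    exact Language.mem_mul.mpr ⟨_, ha'', _, Language.mem_mul.mpr ⟨_, hw, _, hb'', rfl⟩, rfl⟩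

theorem QL_subst {α β : Type} {j : ℕ} {s : α → Language β} (hs : ∀ a, s a ∈ QL β j) (k : ℕ) :
    ∀ L ∈ QL α k, subst L s ∈ QL β (j + k) := by
  induction k with
  | zero =>
    rintro L (rfl | ⟨a, rfl⟩)
    · rw [subst_eps]
      exact eps_mem _
    · rw [subst_letter]
      exact hs a
  | succ k ih =>
    rintro L ⟨E, V, hE, src, tgt, p, q, i, f, hp, hq, hL⟩
    refine ⟨E, V, hE, src, tgt, fun e => subst (p e) s, fun e => subst (q e) s, i, f,
      fun e => ih _ (hp e), fun e => ih _ (hq e), fun w => ⟨?_, ?_⟩⟩
    · rintro ⟨u, hu, hw⟩
      exact SL_subst s ((hL u).mp hu) w hw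
    · intro h
      obtain ⟨u, hu, hw⟩ := SL_subst' s h
      exact ⟨u, (hL u).mpr hu, hw⟩

/-- Words. -/
theorem word_mem {α : Type} (u : List α) : ({u} : Language α) ∈ QL α 1 := by
  have key : ∀ k, k ≤ u.length → ∀ w, SL (E := Fin u.length) (V := ℕ) (fun i => i.val)
      (fun i => i.val + 1) (fun i => ({[u.get i]} : Language α)) (fun _ => {[]})
      (u.length - k) u.length w ↔ w = u.drop (u.length - k) := by
    intro k
    induction k with
    | zero =>
      intro _ w
      rw [Nat.sub_zero, List.drop_length]
      constructor
      · intro h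
        cases h with
        | nil => rfl
        | cons e hs _ _ _ => exact absurd e.isLt (by omega)
      · rintro rfl
        exact .nil _
    | succ k ih =>
      intro hk w
      have hlt : u.length - (k + 1) < u.length := by omega
      have h1 : u.drop (u.length - (k + 1)) = u.get ⟨_, hlt⟩ :: u.drop (u.length - k) := by
        rw [List.drop_eq_getElem_cons hlt]
        congr 2
        omega
      constructor
      · intro h
        generalize hN : u.length - (k + 1) = N at h
        cases h with
        | nil => omega
        | cons e hs ha h' hb =>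
          have he : e.val + 1 = u.length - k := by omega
          rw [he] at h'
          have h2 := (ih (by omega) _).mp h'
          have ha' : _ = [u.get e] := ha
          have hb' : _ = [] := hb
          subst ha' hb' h2
          rw [← hN, h1]
          have : e = ⟨u.length - (k + 1), hlt⟩ := by
            apply Fin.ext
            show e.val = u.length - (k + 1)
            omega
          rw [this]
          simp
      · rintro rfl
        rw [h1]
        have h2 := (ih (by omega) _).mpr rfl
        have h3 : u.length - k = (⟨u.length - (k + 1), hlt⟩ : Fin u.length).val + 1 := by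
          show _ = u.length - (k + 1) + 1
          omega
        have h4 := SL.cons (src := fun i : Fin u.length => i.val) (tgt := fun i => i.val + 1)
          (p := fun i => ({[u.get i]} : Language α)) (q := fun _ => {[]})
          (s := u.length - (k + 1)) (v := u.length) (a := [u.get ⟨_, hlt⟩])
          (w := u.drop (u.length - k)) (b := []) ⟨u.length - (k + 1), hlt⟩ rfl rfl
          (by rw [← h3]; exact h2) rfl
        simpa using h4
  refine ⟨Fin u.length, ℕ, inferInstance, fun i => i.val, fun i => i.val + 1,
    fun i => {[u.get i]}, fun _ => {[]}, 0, u.length, fun e => Or.inr ⟨_, rfl⟩,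
    fun e => Or.inl rfl, fun w => ?_⟩
  have h := key u.length (le_refl _) w
  rw [Nat.sub_self, List.drop_zero] at h
  exact h.symm

section linear

variable {α : Type} (g : ContextFreeGrammar α)

/-- The data of a rule of a linear grammar. -/
def Dec (r : ContextFreeRule α g.NT) (u : List α) (B : Option g.NT) (v : List α) : Prop :=
  (B = none ∧ v = [] ∧ r.output = u.map terminal) ∨
  (∃ C, B = some C ∧ r.output = u.map terminal ++ [nonterminal C] ++ v.map terminal)

theorem yl_terms {N : Type} {I : N → List α → Prop} (u : List α) (w : List α) :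
    Yl I (u.map terminal) w ↔ w = u := by
  induction u generalizing w with
  | nil => exact Iff.rfl
  | cons a u ih =>
    constructor
    · rintro ⟨w', rfl, h⟩
      rw [(ih w').mp h]
    · rintro rfl
      exact ⟨u, rfl, (ih u).mpr rfl⟩

theorem linear_mem {L : Language α} (hL : IsLinear L) : L ∈ QL α 2 := by
  obtain ⟨g, rfl, hg⟩ := hL
  have hdec : ∀ r : {r // r ∈ g.rules}, ∃ (u : List α) (B : Option g.NT) (v : List α),
      Dec g r.1 u B v := by
    rintro ⟨r, hr⟩
    rcases hg r hr with ⟨u, hu⟩ | ⟨u, B, v, h⟩
    · exact ⟨u, none, [], Or.inl ⟨rfl, rfl, hu⟩⟩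
    · exact ⟨u, some B, v, Or.inr ⟨B, rfl, h⟩⟩
  choose u B v huv using hdec
  refine ⟨{r // r ∈ g.rules}, Option g.NT, inferInstance, fun r => some r.1.input, B,
    fun r => {u r}, fun r => {v r}, some g.initial, none, fun e => word_mem _,
    fun e => word_mem _, fun w => ?_⟩
  rw [ContextFreeGrammar.mem_language_iff]
  constructor
  · intro h
    have h1 := sound (g := g) (I := fun A w => SL (fun r : {r // r ∈ g.rules} => some r.1.input) B
      (fun r => {u r}) (fun r => {v r}) (some A) none w) ?_ h
    · obtain ⟨w1, w2, rfl, h2, h3⟩ := h1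
      have h3' : w2 = [] := h3
      subst h3'
      rw [List.append_nil]
      exact h2
    · intro r hr w hw
      rcases huv ⟨r, hr⟩ with ⟨hB, hv, ho⟩ | ⟨C, hB, ho⟩
      · have ho' : r.output = (u ⟨r, hr⟩).map terminal := ho
        rw [ho', yl_terms] at hw
        subst hw
        have h4 := SL.cons (src := fun r : {r // r ∈ g.rules} => some r.1.input) (tgt := B)
          (p := fun r => ({u r} : Language α)) (q := fun r => {v r}) (s := some r.input)
          (v := none) (w := []) (b := v ⟨r, hr⟩) ⟨r, hr⟩ rfl rfl (by rw [hB]; exact .nil _) rfl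
        rw [hv] at h4
        simpa using h4
      · have ho' : r.output = (u ⟨r, hr⟩).map terminal ++ [nonterminal C] ++
          (v ⟨r, hr⟩).map terminal := ho
        rw [ho', Yl_append] at hw
        obtain ⟨w1, w2, rfl, hw1, hw2⟩ := hw
        rw [Yl_append] at hw1
        obtain ⟨w3, w4, rfl, hw3, hw4⟩ := hw1
        rw [yl_terms] at hw3 hw2
        obtain ⟨w5, w6, rfl, hw5, hw6⟩ := hw4
        have hw6' : w6 = [] := hw6
        subst hw3 hw2 hw6'
        have h4 := SL.cons (src := fun r : {r // r ∈ g.rules} => some r.1.input) (tgt := B)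
          (p := fun r => ({u r} : Language α)) (q := fun r => {v r}) (s := some r.input)
          (v := none) (w := w5) (b := v ⟨r, hr⟩) ⟨r, hr⟩ rfl rfl (by rw [hB]; exact hw5) rfl
        simpa using h4
  · intro h
    have h1 : ∀ (s t : Option g.NT) (w : List α),
        SL (fun r : {r // r ∈ g.rules} => some r.1.input) B
        (fun r => {u r}) (fun r => {v r}) s t w → t = none → ∀ A, s = some A → Der g A w := by
      intro s t w h
      induction h with
      | nil => 
        intro h1 A h2
        rw [h1] at h2
        exact absurd h2 (by simp)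
      | cons e hs ha h hb ih =>
        rename_i s t a w b
        intro ht A hA
        rw [← hs] at hA
        have hA' : e.1.input = A := by simpa using hA
        have ha' : a = u e := ha
        have hb' : b = v e := hb
        rw [← hA', ha', hb']
        rcases huv e with ⟨hB, hv, ho⟩ | ⟨C, hB, ho⟩
        · rw [hB] at h
          have hw : w = [] := by
            subst ht
            cases h with
            | nil => rfl
            | cons e' hs' _ _ _ => exact absurd hs' (by simp)
          rw [hw, hv, List.append_nil, List.append_nil]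
          refine complete e.2 ?_
          rw [ho]
          exact (yl_terms _ _).mpr rfl
        · refine complete e.2 ?_
          rw [ho, Yl_append]
          refine ⟨u e ++ w, v e, by simp, ?_, (yl_terms _ _).mpr rfl⟩
          rw [Yl_append]
          exact ⟨u e, w, rfl, (yl_terms _ _).mpr rfl, w, [], by simp, ih ht C hB, rfl⟩
    exact h1 _ _ _ h rfl _ rfl

end linear

/-- Every quasi-rational language lies in some level. -/
theorem quasiRational_mem {α : Type} [Finite α] {L : Language α} (h : QuasiRational α L) :
    ∃ k, L ∈ QL α k := by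
  refine h (fun β P => ∃ k, P ∈ QL β k) ?_ ?_
  · intro β _ P hP
    exact ⟨2, linear_mem hP⟩
  · rintro β γ _ _ P s ⟨k, hP⟩ hs
    choose j hj using hs
    obtain ⟨J, hJ⟩ := (Set.finite_range j).bddAbove
    exact ⟨J + k, QL_subst (fun b => QL_mono (hJ ⟨b, rfl⟩) (hj b)) k P hP⟩

end Pool.Agent.K1H73.Qrt
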