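import Pool.Agent.K1H73.QrtDefs

set_option linter.unusedVariables false

namespace Pool.Agent.K1H73.Qrt

variable {A B : Type}

theorem Transducer.Run.trans {M : Transducer A B} {s t r : M.σ} {u u' : List A} {w w' : List B}
    (h : M.Run s u w t) (h' : M.Run t u' w' r) : M.Run s (u ++ u') (w ++ w') r := by
  induction h with
  | nil s => exact h'
  | cons h1 _ ih =>
    rw [List.append_assoc, List.append_assoc]
    exact .cons h1 (ih h')

/-- Relations computed by transducers. -/
def Real (R : List A → List B → Prop) : Prop :=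
  ∃ M : Transducer A B, ∀ u w, R u w ↔ ∃ s ∈ M.start, ∃ t ∈ M.accept, M.Run s u w t

theorem Real.congr {R R' : List A → List B → Prop} (h : Real R) (hR : ∀ u w, R' u w ↔ R u w) :
    Real R' := by
  obtain ⟨M, hM⟩ := h
  exact ⟨M, fun u w => (hR u w).trans (hM u w)⟩

/-- A transducer with one transition. -/
def bT (a : Option A) (b : Option B) : Transducer A B where
  σ := Bool
  fin := inferInstance
  step s a' b' := {t | s = false ∧ t = true ∧ a' = a ∧ b' = b}
  start := {false}
  accept := {true}

theorem bT_run_true {a : Option A} {b : Option B} {s t : (bT a b).σ} {u : List A} {w : List B}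
    (h : (bT a b).Run s u w t) (hs : s = true) : u = [] ∧ w = [] := by
  cases h with
  | nil s => exact ⟨rfl, rfl⟩
  | cons h1 h2 =>
    have h0 := h1.1
    rw [hs] at h0
    exact absurd h0 (by simp)

theorem bT_run {a : Option A} {b : Option B} {s t : (bT a b).σ} {u : List A} {w : List B}
    (h : (bT a b).Run s u w t) : s = true ∨ t = false ∨ u = a.toList ∧ w = b.toList := by
  cases h with
  | nil s => cases s <;> simp
  | cons h1 h2 =>
    obtain ⟨h0, h3, rfl, rfl⟩ := h1
    obtain ⟨rfl, rfl⟩ := bT_run_true h2 h3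
    right; right; simp

theorem real_base (a : Option A) (b : Option B) :
    Real (fun u w => u = a.toList ∧ w = b.toList) := by
  refine ⟨bT a b, ?_⟩
  intro u w
  constructor
  · rintro ⟨rfl, rfl⟩
    refine ⟨false, rfl, true, rfl, ?_⟩
    have h := Transducer.Run.cons (M := bT a b) (s := false) (t := true) (u := true) (a := a)
      (b := b) ⟨rfl, rfl, rfl, rfl⟩ (.nil (M := bT a b) true)
    simpa using h
  · rintro ⟨s, hs, t, ht, h⟩
    have hs' : s = false := hs
    have ht' : t = true := ht
    subst hs' ht'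
    rcases bT_run h with h | h | h
    · exact absurd h (by simp)
    · exact absurd h (by simp)
    · exact h

/-- Labels of the paths of a graph whose edges are labelled by relations. -/
inductive GP {E V : Type} (src tgt : E → V) (R : E → List A → List B → Prop) :
    V → V → List A → List B → Prop
  | nil (v : V) : GP src tgt R v v [] []
  | cons {s v : V} {u1 u2 : List A} {w1 w2 : List B} (e : E) (hs : src e = s) (h1 : R e u1 w1)
      (h2 : GP src tgt R (tgt e) v u2 w2) : GP src tgt R s v (u1 ++ u2) (w1 ++ w2)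

section graph

variable {E V : Type} (src tgt : E → V) (M : E → Transducer A B) (i : V)

/-- The vertex of a state. -/
def vtx : Option E → V
  | none => i
  | some e => tgt e

/-- The transitions. -/
inductive Stp : Option E ⊕ (Σ e, (M e).σ) → Option A → Option B →
    Option E ⊕ (Σ e, (M e).σ) → Prop
  | enter (x : Option E) (e : E) (s : (M e).σ) (h : src e = vtx tgt i x) (hs : s ∈ (M e).start) :
      Stp (.inl x) none none (.inr ⟨e, s⟩)
  | inner (e : E) (s t : (M e).σ) (a : Option A) (b : Option B) (h : t ∈ (M e).step s a b) :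
      Stp (.inr ⟨e, s⟩) a b (.inr ⟨e, t⟩)
  | leave (e : E) (s : (M e).σ) (hs : s ∈ (M e).accept) :
      Stp (.inr ⟨e, s⟩) none none (.inl (some e))

/-- The transducer of a graph. -/
def gT [Finite E] (f : V) : Transducer A B where
  σ := Option E ⊕ (Σ e, (M e).σ)
  fin := by
    have : ∀ e, Finite (M e).σ := fun e => (M e).fin
    infer_instance
  step s a b := {t | Stp src tgt M i s a b t}
  start := {.inl none}
  accept := {s | ∃ x, s = .inl x ∧ vtx tgt i x = f}

variable [Finite E] (f : V)

theorem gT_inner {e : E} {s t : (M e).σ} {u : List A} {w : List B} (h : (M e).Run s u w t) :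
    (gT src tgt M i f).Run (.inr ⟨e, s⟩) u w (.inr ⟨e, t⟩) := by
  induction h with
  | nil s => exact .nil _
  | cons h1 _ ih =>
    exact Transducer.Run.cons (M := gT src tgt M i f) (t := .inr ⟨e, _⟩)
      (Stp.inner e _ _ _ _ h1) ih

variable (R : E → List A → List B → Prop)
  (hM : ∀ e u w, R e u w ↔ ∃ s ∈ (M e).start, ∃ t ∈ (M e).accept, (M e).Run s u w t)

include hM in
theorem gT_complete {v : V} {u : List A} {w : List B} (h : GP src tgt R v f u w) :
    ∀ x, vtx tgt i x = v → ∃ y, vtx tgt i y = f ∧
      (gT src tgt M i f).Run (.inl x) u w (.inl y) := by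
  induction h with
  | nil v => intro x hx; exact ⟨x, hx, .nil _⟩
  | @cons s0 v u1 u2 w1 w2 e hs h1 h2 ih =>
    intro x hx
    obtain ⟨s, hs', t, ht, hr⟩ := (hM _ _ _).mp h1
    obtain ⟨y, hy, hry⟩ := ih (some e) rfl
    refine ⟨y, hy, ?_⟩
    have h3 : (gT src tgt M i v).Run (.inl x) _ _ (.inr ⟨e, s⟩) :=
      Transducer.Run.cons (M := gT src tgt M i v) (t := .inr ⟨e, s⟩)
        (Stp.enter x e s (hs.trans hx.symm) hs') (.nil _)
    have h4 : (gT src tgt M i v).Run (.inr ⟨e, t⟩) _ _ (.inl (some e)) :=
      Transducer.Run.cons (M := gT src tgt M i v) (t := .inl (some e))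
        (Stp.leave e t ht) (.nil _)
    have h5 := (h3.trans (gT_inner src tgt M i v hr)).trans (h4.trans hry)
    simpa using h5

include hM in
theorem gT_sound {x y : (gT src tgt M i f).σ} {u : List A} {w : List B}
    (h : (gT src tgt M i f).Run x u w y) : ∀ y', y = .inl y' → vtx tgt i y' = f →
    (∀ x', x = .inl x' → GP src tgt R (vtx tgt i x') f u w) ∧
    (∀ e s, x = .inr ⟨e, s⟩ → ∃ u1 u2 w1 w2, u = u1 ++ u2 ∧ w = w1 ++ w2 ∧
      (∃ t ∈ (M e).accept, (M e).Run s u1 w1 t) ∧ GP src tgt R (tgt e) f u2 w2) := by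
  induction h with
  | nil s =>
    intro y' hy' hf
    constructor
    · rintro x' rfl
      have h3 : x' = y' := Sum.inl_injective hy'
      subst h3
      rw [hf]
      exact .nil _
    · rintro e s' rfl
      simp at hy'
  | cons h1 h2 ih =>
    intro y' hy' hf
    obtain ⟨ih1, ih2⟩ := ih y' hy' hf
    constructor
    · rintro x' rfl
      cases h1 with
      | enter x e s h hs =>
        obtain ⟨u1, u2, w1, w2, rfl, rfl, ⟨t, ht, hr⟩, hg⟩ := ih2 e s rfl
        simp only [Option.toList_none, List.nil_append]
        exact .cons e h ((hM _ _ _).mpr ⟨s, hs, t, ht, hr⟩) hg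
    · rintro e s rfl
      cases h1 with
      | inner _ _ t a b h =>
        obtain ⟨u1, u2, w1, w2, rfl, rfl, ⟨t', ht, hr⟩, hg⟩ := ih2 e t rfl
        exact ⟨_, u2, _, w2, (List.append_assoc _ _ _).symm, (List.append_assoc _ _ _).symm,
          ⟨t', ht, .cons h hr⟩, hg⟩
      | leave _ _ hs =>
        have := ih1 (some e) rfl
        exact ⟨[], _, [], _, rfl, rfl, ⟨s, hs, .nil _⟩, this⟩

end graph

theorem real_graph {E V : Type} [Finite E] {src tgt : E → V} {R : E → List A → List B → Prop}
    (h : ∀ e, Real (R e)) (i f : V) : Real (GP src tgt R i f) := by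
  choose M hM using h
  refine ⟨gT src tgt M i f, fun u w => ⟨?_, ?_⟩⟩
  · intro h
    obtain ⟨y, hy, hr⟩ := gT_complete src tgt M i f R hM h none rfl
    exact ⟨.inl none, rfl, .inl y, ⟨y, rfl, hy⟩, hr⟩
  · rintro ⟨s, hs, t, ⟨y, rfl, hy⟩, hr⟩
    have hs' : s = .inl none := hs
    subst hs'
    exact (gT_sound src tgt M i f R hM hr y rfl hy).1 none rfl

theorem real_mul {R S : List A → List B → Prop} (hR : Real R) (hS : Real S) :
    Real (fun u w => ∃ u1 u2 w1 w2, u = u1 ++ u2 ∧ w = w1 ++ w2 ∧ R u1 w1 ∧ S u2 w2) := by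
  have h := real_graph (E := Bool) (V := ℕ) (src := fun b => if b then 1 else 0)
    (tgt := fun b => if b then 2 else 1) (R := fun b => if b then S else R)
    (by intro e; cases e <;> simpa) 0 2
  refine h.congr fun u w => ⟨?_, ?_⟩
  · rintro ⟨u1, u2, w1, w2, rfl, rfl, h1, h2⟩
    refine .cons (e := false) rfl (by simpa using h1) ?_
    have := GP.cons (src := fun b : Bool => if b then 1 else 0)
      (tgt := fun b : Bool => if b then 2 else 1) (R := fun b => if b then S else R)
      (s := 1) (v := 2) (e := true) (u1 := u2) (w1 := w2) rfl (by simpa using h2) (.nil _)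
    simpa using this
  · intro h
    cases h with
    | cons e hs h1 h2 =>
      cases e with
      | true => simp at hs
      | false =>
        cases h2 with
        | cons e' hs' h3 h4 =>
          cases e' with
          | false => simp at hs'
          | true =>
            cases h4 with
            | nil => exact ⟨_, _, _, _, rfl, rfl, by simpa using h1, by simpa using h3⟩
            | cons e'' hs'' _ _ =>
              exfalso
              revert hs''
              cases e'' <;> simp

theorem real_single (u0 : List A) (w0 : List B) : Real (fun u w => u = u0 ∧ w = w0) := by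
  induction u0 with
  | nil =>
    induction w0 with
    | nil => simpa using real_base (A := A) (B := B) none none
    | cons b w1 ih =>
      refine (real_mul (real_base none (some b)) ih).congr fun u w => ⟨?_, ?_⟩
      · rintro ⟨rfl, rfl⟩
        exact ⟨[], [], [b], _, rfl, rfl, ⟨rfl, rfl⟩, rfl, rfl⟩
      · rintro ⟨u1, u2, w1, w2, rfl, rfl, ⟨rfl, rfl⟩, rfl, rfl⟩
        exact ⟨rfl, rfl⟩
  | cons a u0 ih =>
    refine (real_mul (real_base (some a) none) ih).congr fun u w => ⟨?_, ?_⟩
    · rintro ⟨rfl, rfl⟩
      exact ⟨[a], _, [], _, rfl, rfl, ⟨rfl, rfl⟩, rfl, rfl⟩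
    · rintro ⟨u1, u2, w1, w2, rfl, rfl, ⟨rfl, rfl⟩, rfl, rfl⟩
      exact ⟨rfl, rfl⟩

end Pool.Agent.K1H73.Qrt
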