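import Pool.Agent.K1H73.QrtTok
import Pool.Agent.K1H73.QrtReal
import Pool.Agent.K1H73.QrtQL

set_option linter.unusedVariables false
set_option linter.unusedSimpArgs false

namespace Pool.Agent.K1H73.Qrt

variable {α : Type}

/-- Relations of token sequences that are computed by transducers on the words. -/
def LReal (K : List Tok → List α → Prop) : Prop :=
  Real (fun u w => ∃ t, u = wds t ∧ K t w)

theorem lreal_single (t0 : List Tok) (w0 : List α) : LReal (fun t w => t = t0 ∧ w = w0) := by
  refine (real_single (wds t0) w0).congr fun u w => ⟨?_, ?_⟩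
  · rintro ⟨t, rfl, rfl, rfl⟩
    exact ⟨rfl, rfl⟩
  · rintro ⟨rfl, rfl⟩
    exact ⟨t0, rfl, rfl, rfl⟩

theorem lreal_graph {E V : Type} [Finite E] {src tgt : E → V} {R : E → List Tok → List α → Prop}
    (h : ∀ e, LReal (R e)) (i f : V) : LReal (GP src tgt R i f) := by
  refine (real_graph (src := src) (tgt := tgt) h i f).congr fun u w => ⟨?_, ?_⟩
  · rintro ⟨t, rfl, h⟩
    induction h with
    | nil v => exact .nil v
    | cons e hs h1 h2 ih =>
      rw [wds_append]
      exact .cons e hs ⟨_, rfl, h1⟩ ih
  · intro h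
    induction h with
    | nil v => exact ⟨[], rfl, .nil v⟩
    | cons e hs h1 h2 ih =>
      obtain ⟨t1, rfl, h1⟩ := h1
      obtain ⟨t2, rfl, h3⟩ := ih
      exact ⟨t1 ++ t2, (wds_append _ _).symm, .cons e hs h1 h3⟩

theorem lreal_mul {R S : List Tok → List α → Prop} (hR : LReal R) (hS : LReal S) :
    LReal (fun t w => ∃ t1 t2 w1 w2, t = t1 ++ t2 ∧ w = w1 ++ w2 ∧ R t1 w1 ∧ S t2 w2) := by
  refine (real_mul hR hS).congr fun u w => ⟨?_, ?_⟩
  · rintro ⟨t, rfl, t1, t2, w1, w2, rfl, rfl, h1, h2⟩
    exact ⟨wds t1, wds t2, w1, w2, wds_append _ _, rfl, ⟨t1, rfl, h1⟩, ⟨t2, rfl, h2⟩⟩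
  · rintro ⟨_, _, w1, w2, rfl, rfl, ⟨t1, rfl, h1⟩, ⟨t2, rfl, h2⟩⟩
    exact ⟨t1 ++ t2, (wds_append _ _).symm, t1, t2, w1, w2, rfl, rfl, h1, h2⟩

/-- The tag of a level. -/
def fk : ℕ → ℕ
  | 0 => 0
  | k + 1 => 2 * fk k + 1

/-- Shape of token sequences with extreme tags `m` and `l` and all tags at most `l'`. -/
def Shape (m l l' : ℕ) (t : List Tok) : Prop :=
  (∃ c, t.head? = some (.op c m)) ∧ (∃ c, t.getLast? = some (.cl c l)) ∧
  (∀ τ ∈ t, τ.tag ≤ l') ∧ t.IsChain Good

/-- An encoding of a language. -/
def Enc (k : ℕ) (P : Language α) (K : List Tok → List α → Prop) : Prop :=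
  LReal K ∧ (∀ t w, K t w → Shape (fk k) (fk k) (fk k) t) ∧
  (∀ (T : Tr) w, K T.toks w → w ∈ P) ∧ (∀ w ∈ P, ∃ T : Tr, K T.toks w)

theorem enc_zero (v : List α) : Enc 0 ({v} : Language α)
    (fun t w => t = [.op 0 0, .cl 0 0] ∧ w = v) := by
  refine ⟨lreal_single _ _, ?_, ?_, ?_⟩
  · rintro t w ⟨rfl, rfl⟩
    refine ⟨⟨0, rfl⟩, ⟨0, rfl⟩, ?_, ?_⟩
    · intro τ hτ
      simp at hτ
      rcases hτ with rfl | rfl <;> exact le_refl _
    · simp [Good]
  · rintro T w ⟨_, h⟩
    exact h
  · intro w hw
    exact ⟨.leaf 0 0, rfl, hw⟩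

section step

variable {E V : Type} (src tgt : E → V) (p q : E → Language α) (i f : V) (k : ℕ)
  (idx : E → ℕ) (Kp Kq : E → List Tok → List α → Prop)

/-- Sources of the edges. -/
def src' : E ⊕ Option E → Option V
  | .inl e => some (src e)
  | .inr none => some f
  | .inr (some _) => none

/-- Targets of the edges. -/
def tgt' : E ⊕ Option E → Option V
  | .inl e => some (tgt e)
  | .inr none => none
  | .inr (some _) => none

/-- Labels of the edges. -/
def R' : E ⊕ Option E → List Tok → List α → Prop
  | .inl e => fun t w => ∃ t', t = .op (idx e) (fk (k + 1)) :: t' ∧ Kp e t' w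
  | .inr none => fun t w => t = [.op 0 (fk (k + 1)), .cl 0 (fk (k + 1))] ∧ w = []
  | .inr (some e) => fun t w => ∃ t', t = t' ++ [.cl (idx e) (fk (k + 1))] ∧ Kq e t' w

/-- The paths. -/
abbrev GG : Option V → Option V → List Tok → List α → Prop :=
  GP (src' src f) (tgt' tgt) (R' k idx Kp Kq)

variable (hp : ∀ e, Enc k (p e) (Kp e)) (hq : ∀ e, Enc k (q e) (Kq e))

include hp hq in
theorem lreal_step [Finite E] : LReal (GG src tgt f k idx Kp Kq (some i) none) := by
  refine lreal_graph ?_ _ _
  rintro (e | _ | e)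
  · have := lreal_mul (lreal_single [.op (idx e) (fk (k + 1))] ([] : List α)) (hp e).1
    have h2 : (R' k idx Kp Kq (.inl e)) = (fun t w => ∃ t1 t2 w1 w2, t = t1 ++ t2 ∧
        w = w1 ++ w2 ∧ (t1 = [.op (idx e) (fk (k + 1))] ∧ w1 = []) ∧ Kp e t2 w2) := by
      funext t w
      apply propext
      constructor
      · rintro ⟨t', rfl, h⟩
        exact ⟨_, t', [], w, rfl, rfl, ⟨rfl, rfl⟩, h⟩
      · rintro ⟨t1, t2, w1, w2, rfl, rfl, ⟨rfl, rfl⟩, h⟩
        exact ⟨t2, rfl, h⟩
    rw [h2]
    exact this
  · exact lreal_single _ _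
  · have := lreal_mul (hq e).1 (lreal_single [.cl (idx e) (fk (k + 1))] ([] : List α))
    have h2 : (R' k idx Kp Kq (.inr (some e))) = (fun t w => ∃ t1 t2 w1 w2, t = t1 ++ t2 ∧
        w = w1 ++ w2 ∧ Kq e t1 w1 ∧ (t2 = [.cl (idx e) (fk (k + 1))] ∧ w2 = [])) := by
      funext t w
      apply propext
      constructor
      · rintro ⟨t', rfl, h⟩
        exact ⟨t', _, w, [], rfl, (List.append_nil _).symm, h, rfl, rfl⟩
      · rintro ⟨t1, t2, w1, w2, rfl, rfl, h, rfl, rfl⟩
        exact ⟨t1, rfl, by simpa using h⟩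
    rw [h2]
    exact this

theorem fk_lt : fk k < fk (k + 1) := by
  rw [fk]; omega

theorem shape_append {m l l' m2 l2 : ℕ} {t t' : List Tok} (h : Shape m l l' t)
    (h' : Shape m2 l2 l' t') (hg : m2 ≤ 2 * l + 1) : Shape m l2 l' (t ++ t') := by
  obtain ⟨⟨c1, h1⟩, ⟨c2, h2⟩, h3, h4⟩ := h
  obtain ⟨⟨c1', h1'⟩, ⟨c2', h2'⟩, h3', h4'⟩ := h'
  refine ⟨⟨c1, by rw [List.head?_append, h1]; rfl⟩, ⟨c2', by rw [List.getLast?_append, h2']; rfl⟩,
    ?_, ?_⟩
  · intro τ hτ
    rcases List.mem_append.mp hτ with h | h
    · exact h3 τ h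
    · exact h3' τ h
  · rw [List.isChain_append]
    refine ⟨h4, h4', ?_⟩
    intro x hx y hy
    rw [h2] at hx
    rw [h1'] at hy
    obtain rfl : Tok.cl c2 l = x := by simpa using hx
    obtain rfl : Tok.op c1' m2 = y := by simpa using hy
    exact hg

theorem shape_open {m l l' L c : ℕ} {t : List Tok} (h : Shape m l l' t) (hg : 2 * m + 1 ≤ L)
    (hl : l' ≤ L) : Shape L l L (.op c L :: t) := by
  obtain ⟨⟨c1, h1⟩, ⟨c2, h2⟩, h3, h4⟩ := h
  have hne : t ≠ [] := by rintro rfl; simp at h1
  refine ⟨⟨c, rfl⟩, ⟨c2, ?_⟩, ?_, ?_⟩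
  · have : Tok.op c L :: t = [Tok.op c L] ++ t := rfl
    rw [this, List.getLast?_append, h2]
    rfl
  · intro τ hτ
    rcases List.mem_cons.mp hτ with rfl | h
    · exact le_refl _
    · exact (h3 τ h).trans hl
  · have : Tok.op c L :: t = [Tok.op c L] ++ t := rfl
    rw [this, List.isChain_append]
    refine ⟨by simp, h4, ?_⟩
    intro x hx y hy
    rw [h1] at hy
    obtain rfl : Tok.op c L = x := by simpa using hx
    obtain rfl : Tok.op c1 m = y := by simpa using hy
    exact hg

theorem shape_close {m l l' L c : ℕ} {t : List Tok} (h : Shape m l l' t) (hg : 2 * l + 1 ≤ L)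
    (hl : l' ≤ L) : Shape m L L (t ++ [.cl c L]) := by
  obtain ⟨⟨c1, h1⟩, ⟨c2, h2⟩, h3, h4⟩ := h
  refine ⟨⟨c1, by rw [List.head?_append, h1]; rfl⟩, ⟨c, by rw [List.getLast?_append]; rfl⟩,
    ?_, ?_⟩
  · intro τ hτ
    rcases List.mem_append.mp hτ with h | h
    · exact (h3 τ h).trans hl
    · obtain rfl : τ = .cl c L := by simpa using h
      exact le_refl _
  · rw [List.isChain_append]
    refine ⟨h4, by simp, ?_⟩
    intro x hx y hy
    rw [h2] at hx
    obtain rfl : Tok.cl c2 l = x := by simpa using hx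
    obtain rfl : Tok.cl c L = y := by simpa using hy
    exact hg

theorem shape_leaf (L : ℕ) : Shape L L L [.op 0 L, .cl 0 L] := by
  refine ⟨⟨0, rfl⟩, ⟨0, rfl⟩, ?_, ?_⟩
  · intro τ hτ
    simp at hτ
    rcases hτ with rfl | rfl <;> exact le_refl _
  · simp [Good]

include hp hq in
theorem shape_path {s v : Option V} {t : List Tok} {w : List α}
    (h : GG src tgt f k idx Kp Kq s v t w) : v = none →
    (s = none → t = [] ∨ Shape (fk k) (fk (k + 1)) (fk (k + 1)) t) ∧
    (∀ u, s = some u → Shape (fk (k + 1)) (fk (k + 1)) (fk (k + 1)) t) := by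
  have hlt := fk_lt k
  induction h with
  | nil v =>
    rintro rfl
    exact ⟨fun _ => Or.inl rfl, fun u h => absurd h (by simp)⟩
  | @cons s v t1 t2 w1 w2 e hs h1 h2 ih =>
    intro hv
    obtain ⟨ih1, ih2⟩ := ih hv
    rcases e with e | _ | e
    · -- opening
      obtain ⟨t', rfl, h⟩ := h1
      have h3 := ih2 (tgt e) rfl
      have h4 := (hp e).2.1 _ _ h
      have h5 := shape_open (c := idx e) h4 (L := fk (k + 1)) (by rw [fk]) hlt.le
      have h6 := shape_append h5 h3 (by rw [fk])
      refine ⟨?_, fun _ _ => h6⟩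
      intro hn
      rw [hn] at hs
      exact absurd hs (by simp [src'])
    · -- leaf
      obtain ⟨rfl, rfl⟩ := h1
      refine ⟨?_, fun _ _ => ?_⟩
      · intro hn
        rw [hn] at hs
        exact absurd hs (by simp [src'])
      · rcases ih1 rfl with rfl | h3
        · simpa using shape_leaf _
        · exact shape_append (shape_leaf _) h3 (by omega)
    · -- closing
      obtain ⟨t', rfl, h⟩ := h1
      have h4 := (hq e).2.1 _ _ h
      have h5 := shape_close (c := idx e) h4 (L := fk (k + 1)) (by rw [fk]) hlt.le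
      refine ⟨fun _ => Or.inr ?_, fun u hu => ?_⟩
      · rcases ih1 rfl with rfl | h3
        · simpa using h5
        · exact shape_append h5 h3 (by omega)
      · rw [hu] at hs
        exact absurd hs (by simp [src'])

theorem shape_tree {m l l' : ℕ} {T : Tr} {s r : List Tok} {c : ℕ} (h : r.head? = some (.op c m))
    (he : T.toks ++ s = r) : T.tag = m := by
  have h1 := congrArg List.head? he
  rw [List.head?_append, toks_head, h] at h1
  have h2 : Tok.op T.lab T.tag = Tok.op c m := by simpa using h1
  exact (Tok.op.inj h2).2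

/-- A tree with a small tag ends inside a block with small tags that is followed by a large
tag. -/
theorem pre {m L : ℕ} {T : Tr} {s κ s' : List Tok} (h : T.toks ++ s = κ ++ s')
    (hT : T.toks.IsChain Good) (ht : T.tag ≤ m)
    (hs : ∀ τ, s'.head? = some τ → m < τ.tag) : ∃ κ2, κ = T.toks ++ κ2 ∧ s = κ2 ++ s' := by
  rcases List.append_eq_append_iff.mp h with ⟨a', h1, h2⟩ | ⟨c', h1, h2⟩
  · exact ⟨a', h1, h2⟩
  · cases c' with
    | nil => exact ⟨[], by simpa using h1.symm, by simpa using h2.symm⟩
    | cons τ c'' =>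
      exfalso
      have h3 : s'.head? = some τ := by rw [h2]; rfl
      have h4 := hs τ h3
      have h5 := mono hT τ (by rw [h1]; simp)
      omega

variable (hidx : Function.Injective idx)

include hp hq hidx in
theorem decode {s v : Option V} {t : List Tok} {w : List α}
    (h : GG src tgt f k idx Kp Kq s v t w) : v = none → ∀ u, s = some u →
    ∀ (T : Tr) (r : List Tok), t = T.toks ++ r → T.toks.IsChain Good →
    ∃ w1 w2, w = w1 ++ w2 ∧ SL src tgt p q u f w1 ∧
      GG src tgt f k idx Kp Kq none none r w2 := by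
  have hlt := fk_lt k
  induction h with
  | nil v =>
    rintro rfl u h
    exact absurd h (by simp)
  | @cons s v t1 t2 w1 w2 e hs h1 h2 ih =>
    intro hv u hu T r hT hch
    rcases e with e | _ | e
    · -- opening edge
      obtain ⟨κ, rfl, hκ⟩ := h1
      have hsh2 := (shape_path src tgt p q f k idx Kp Kq hp hq h2 hv).2 _ rfl
      have hshκ := (hp e).2.1 _ _ hκ
      obtain ⟨⟨c2, hc2⟩, _, _, _⟩ := hsh2
      obtain ⟨⟨c1, hc1⟩, ⟨c1', hc1'⟩, htag, hchκ⟩ := hshκ
      have hsrc : src e = u := by
        have : some (src e) = some u := hs.trans hu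
        simpa using this
      have hbig : ∀ τ, t2.head? = some τ → fk k < τ.tag := by
        intro τ hτ
        rw [hc2] at hτ
        obtain rfl : Tok.op c2 (fk (k + 1)) = τ := by simpa using hτ
        exact hlt
      cases T with
      | leaf c l =>
        exfalso
        have h3 : κ ++ t2 = .cl c l :: r := (List.cons.inj hT).2
        have h4 := congrArg List.head? h3
        rw [List.head?_append, hc1] at h4
        simp at h4
      | node c l T1 T2 T3 =>
        obtain ⟨hch1, hch2, hch3, ha1, ha2, ha3⟩ := chain_node hch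
        have h3 : Tok.op (idx e) (fk (k + 1)) :: (κ ++ t2) =
            Tok.op c l :: (T1.toks ++ (T2.toks ++ (T3.toks ++ (.cl c l :: r)))) := by
          have : Tok.op (idx e) (fk (k + 1)) :: (κ ++ t2) = (Tr.node c l T1 T2 T3).toks ++ r := hT
          rw [this]
          simp [Tr.toks]
        obtain ⟨h4, h5⟩ := List.cons.inj h3
        obtain ⟨rfl, rfl⟩ := Tok.op.inj h4
        have hT1 : T1.tag = fk k :=
          shape_tree (m := fk k) (l := 0) (l' := 0) (c := c1)
            (by rw [List.head?_append, hc1]; rfl) h5.symm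
        obtain ⟨κ2, hk2, h6⟩ := pre (m := fk k) (L := 0) h5.symm hch1 hT1.le hbig
        have hκ2 : κ2 = [] := by
          by_contra hne
          obtain ⟨τ, κ2', rfl⟩ := List.exists_cons_of_ne_nil hne
          have hτ : τ.tag ≤ fk k := htag τ (by rw [hk2]; simp)
          have h7 : T2.toks ++ (T3.toks ++ (.cl (idx e) (fk (k + 1)) :: r)) =
            (τ :: κ2') ++ t2 := h6
          have hT2 : T2.tag ≤ fk k := by
            have h8 := congrArg List.head? h7
            rw [List.head?_append, toks_head] at h8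
            obtain rfl : Tok.op T2.lab T2.tag = τ := by simpa using h8
            exact hτ
          obtain ⟨κ3, hk3, h9⟩ := pre (m := fk k) (L := 0) h7 hch2 hT2 hbig
          cases κ3 with
          | nil =>
            have h10 : T3.toks ++ (.cl (idx e) (fk (k + 1)) :: r) = t2 := by simpa using h9
            have h11 : T3.tag = fk (k + 1) :=
              shape_tree (m := fk (k + 1)) (l := 0) (l' := 0) hc2 h10
            omega
          | cons τ' κ3' =>
            have hτ' : τ'.tag ≤ fk k := htag τ' (by rw [hk2, hk3]; simp)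
            have hT3 : T3.tag ≤ fk k := by
              have h8 := congrArg List.head? h9
              rw [List.head?_append, toks_head] at h8
              obtain rfl : Tok.op T3.lab T3.tag = τ' := by simpa using h8
              exact hτ'
            obtain ⟨κ4, hk4, h10⟩ := pre (m := fk k) (L := 0) h9 hch3 hT3 hbig
            cases κ4 with
            | nil =>
              have h11 : Tok.cl (idx e) (fk (k + 1)) :: r = t2 := by simpa using h10
              rw [← h11] at hc2
              simp at hc2
            | cons τ'' κ4' =>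
              have h11 : τ'' = Tok.cl (idx e) (fk (k + 1)) := (List.cons.inj h10).1.symm
              have h12 : τ''.tag ≤ fk k := htag τ'' (by rw [hk2, hk3, hk4]; simp)
              rw [h11] at h12
              have h13 : fk (k + 1) ≤ fk k := h12
              omega
        subst hκ2
        have hk2' : κ = T1.toks := by simpa using hk2
        have h6' : t2 = T2.toks ++ (T3.toks ++ (.cl (idx e) (fk (k + 1)) :: r)) := by
          simpa using h6.symm
        obtain ⟨w3, w4, rfl, hw3, hw4⟩ := ih hv (tgt e) rfl T2 _ h6' hch2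
        -- the closing block
        generalize hr' : T3.toks ++ (Tok.cl (idx e) (fk (k + 1)) :: r) = r' at hw4
        generalize hn : (none : Option V) = n1 at hw4
        cases hw4 with
        | nil =>
          exfalso
          have := congrArg List.head? hr'
          rw [List.head?_append, toks_head] at this
          simp at this
        | @cons _ _ t3 t4 w5 w6 e' hs' h1' h2' =>
          rcases e' with e' | _ | e'
          · exact absurd (hs'.trans hn.symm) (by simp [src'])
          · exact absurd (hs'.trans hn.symm) (by simp [src'])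
          · obtain ⟨κ', rfl, hκ'⟩ := h1'
            obtain ⟨⟨c3, hc3⟩, _, htag', _⟩ := (hq e').2.1 _ _ hκ'
            have h12 : T3.toks ++ (Tok.cl (idx e) (fk (k + 1)) :: r) =
                κ' ++ (Tok.cl (idx e') (fk (k + 1)) :: t4) := by
              rw [hr']; simp
            have hT3 : T3.tag = fk k :=
              shape_tree (m := fk k) (l := 0) (l' := 0) (c := c3)
                (by rw [List.head?_append, hc3]; rfl) h12
            obtain ⟨κ5, hk5, h13⟩ := pre (m := fk k) (L := 0) h12 hch3 hT3.le (by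
              intro τ hτ
              obtain rfl : Tok.cl (idx e') (fk (k + 1)) = τ := by simpa using hτ
              exact hlt)
            have hκ5 : κ5 = [] := by
              cases κ5 with
              | nil => rfl
              | cons τ κ6 =>
                exfalso
                have h11 : τ = Tok.cl (idx e) (fk (k + 1)) := (List.cons.inj h13).1.symm
                have h12 : τ.tag ≤ fk k := htag' τ (by rw [hk5]; simp)
                rw [h11] at h12
                have h13 : fk (k + 1) ≤ fk k := h12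
                omega
            subst hκ5
            obtain ⟨h14, h15⟩ := List.cons.inj h13
            have hee : e = e' := hidx (Tok.cl.inj h14).1
            subst hee
            have hk5' : κ' = T3.toks := by simpa using hk5
            rw [hk5'] at hκ'
            rw [hk2'] at hκ
            have hwp := (hp e).2.2.1 _ _ hκ
            have hwq := (hq e).2.2.1 _ _ hκ'
            refine ⟨w1 ++ (w3 ++ w5), w6, by simp, ?_, ?_⟩
            · exact .cons e hsrc hwp hw3 hwq
            · rw [h15]
              subst hn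
              exact h2'
    · -- leaf
      obtain ⟨rfl, rfl⟩ := h1
      have hu' : f = u := by
        have : some f = some u := hs.trans hu
        simpa using this
      subst hu' hv
      cases T with
      | leaf c l =>
        have h3 : t2 = r := by
          have h4 : Tok.op 0 (fk (k + 1)) :: Tok.cl 0 (fk (k + 1)) :: t2 =
            Tok.op c l :: Tok.cl c l :: r := hT
          exact (List.cons.inj (List.cons.inj h4).2).2
        subst h3
        exact ⟨[], w2, rfl, .nil _, h2⟩
      | node c l T1 T2 T3 =>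
        exfalso
        have h4 : Tok.op 0 (fk (k + 1)) :: Tok.cl 0 (fk (k + 1)) :: t2 =
            (Tr.node c l T1 T2 T3).toks ++ r := hT
        simp only [Tr.toks, List.cons_append] at h4
        have h5 := congrArg List.head? (List.cons.inj h4).2
        simp [List.head?_append, toks_head] at h5
    · -- closing
      rw [hu] at hs
      exact absurd hs (by simp [src'])

include hp hq in
theorem encode {u v : V} {w : List α} (h : SL src tgt p q u v w) : v = f →
    ∃ T : Tr, ∀ r w', GG src tgt f k idx Kp Kq none none r w' →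
      GG src tgt f k idx Kp Kq (some u) none (T.toks ++ r) (w ++ w') := by
  induction h with
  | nil v =>
    rintro rfl
    refine ⟨.leaf 0 (fk (k + 1)), fun r w' h => ?_⟩
    exact GP.cons (e := .inr none) (s := some v) rfl ⟨rfl, rfl⟩ h
  | @cons s v a w b e hs ha h hb ih =>
    intro hv
    obtain ⟨T2, hT2⟩ := ih hv
    obtain ⟨T1, hT1⟩ := (hp e).2.2.2 _ ha
    obtain ⟨T3, hT3⟩ := (hq e).2.2.2 _ hb
    refine ⟨.node (idx e) (fk (k + 1)) T1 T2 T3, fun r w' h' => ?_⟩
    have h1 : GG src tgt f k idx Kp Kq none none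
        ((T3.toks ++ [.cl (idx e) (fk (k + 1))]) ++ r) (b ++ w') :=
      GP.cons (e := .inr (some e)) rfl ⟨_, rfl, hT3⟩ h'
    have h2 := hT2 _ _ h1
    have h3 : GG src tgt f k idx Kp Kq (some s) none
        ((.op (idx e) (fk (k + 1)) :: T1.toks) ++
          (T2.toks ++ ((T3.toks ++ [.cl (idx e) (fk (k + 1))]) ++ r)))
        (a ++ (w ++ (b ++ w'))) :=
      GP.cons (e := .inl e) (congrArg some hs) ⟨_, rfl, hT1⟩ h2
    have h4 : (Tr.node (idx e) (fk (k + 1)) T1 T2 T3).toks ++ r =
        (.op (idx e) (fk (k + 1)) :: T1.toks) ++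
          (T2.toks ++ ((T3.toks ++ [.cl (idx e) (fk (k + 1))]) ++ r)) := by
      simp [Tr.toks]
    have h5 : a ++ (w ++ b) ++ w' = a ++ (w ++ (b ++ w')) := by simp
    rw [h4, h5]
    exact h3

end step

theorem exists_enc (k : ℕ) : ∀ P ∈ QL α k, ∃ K, Enc k P K := by
  induction k with
  | zero =>
    rintro P (rfl | ⟨a, rfl⟩)
    · exact ⟨_, enc_zero []⟩
    · exact ⟨_, enc_zero [a]⟩
  | succ k ih =>
    rintro P ⟨E, V, hE, src, tgt, p, q, i, f, hp, hq, hP⟩
    choose Kp hKp using fun e => ih _ (hp e)
    choose Kq hKq using fun e => ih _ (hq e)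
    obtain ⟨n, ⟨eqv⟩⟩ := Finite.exists_equiv_fin E
    have hidx : Function.Injective (fun e => (eqv e).val) :=
      fun a b h => eqv.injective (Fin.ext h)
    refine ⟨GG src tgt f k (fun e => (eqv e).val) Kp Kq (some i) none,
      lreal_step src tgt p q i f k _ Kp Kq hKp hKq, ?_, ?_, ?_⟩
    · intro t w h
      exact (shape_path src tgt p q f k _ Kp Kq hKp hKq h rfl).2 i rfl
    · intro T w h
      have hch := ((shape_path src tgt p q f k _ Kp Kq hKp hKq h rfl).2 i rfl).2.2.2
      obtain ⟨w1, w2, rfl, h1, h2⟩ := decode src tgt p q f k _ Kp Kq hKp hKq hidx h rfl i rfl T []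
        (List.append_nil _).symm hch
      have h3 : w2 = [] := by
        generalize hr : ([] : List Tok) = r at h2
        generalize hn : (none : Option V) = n1 at h2
        cases h2 with
        | nil => rfl
        | @cons _ _ t3 t4 w5 w6 e' hs' h1' h2' =>
          exfalso
          have ht3 : t3 = [] := (List.append_eq_nil_iff.mp hr.symm).1
          subst ht3
          rcases e' with e' | _ | e'
          · obtain ⟨t', h, _⟩ := h1'
            exact absurd h (by simp)
          · exact absurd h1'.1 (by simp)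
          · obtain ⟨t', h, _⟩ := h1'
            exact absurd h (by simp)
      rw [h3, List.append_nil]
      exact (hP _).mpr h1
    · intro w hw
      obtain ⟨T, hT⟩ := encode src tgt p q f k (fun e => (eqv e).val) Kp Kq hKp hKq
        ((hP w).mp hw) rfl
      refine ⟨T, ?_⟩
      simpa using hT [] [] (.nil _)

/-- Every quasi-rational language lies in the cone. -/
theorem inCone_of_quasiRational [Finite α] {P : Language α} (h : QuasiRational α P) :
    InCone LL P := by
  obtain ⟨k, hk⟩ := quasiRational_mem h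
  obtain ⟨K, ⟨M, hM⟩, hK1, hK2, hK3⟩ := exists_enc k P hk
  refine ⟨M, ?_⟩
  ext w
  constructor
  · intro hw
    obtain ⟨T, hT⟩ := hK3 w hw
    obtain ⟨s, hs, t, ht, hr⟩ := (hM _ _).mp ⟨T.toks, rfl, hT⟩
    exact ⟨_, Or.inl ⟨T, (word_eq T).symm⟩, s, hs, t, ht, hr⟩
  · rintro ⟨u, hu, s, hs, t, ht, hr⟩
    obtain ⟨τ, rfl, hτ⟩ := (hM _ _).mpr ⟨s, hs, t, ht, hr⟩
    obtain ⟨T, rfl⟩ := (wds_mem (hK1 _ _ hτ).2.2.2).mp hu
    exact hK2 _ _ hτ

end Pool.Agent.K1H73.Qrt
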