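import Pool.Agent.K1H73.QrtDefs

set_option linter.unusedVariables false

namespace Pool.Agent.K1H73.Qrt

/-- The alphabet. -/
inductive Sg
  | x | y | a | b | d | e | o | p
  deriving DecidableEq

instance : Fintype Sg where
  elems := {.x, .y, .a, .b, .d, .e, .o, .p}
  complete := by intro s; cases s <;> simp

/-- Runs. -/
abbrev rep (n : ℕ) (s : Sg) : List Sg := List.replicate n s

/-- Trees: a leaf, or a node with three children; each vertex carries a label `c` and a tag `l`. -/
inductive Tr
  | leaf (c l : ℕ)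
  | node (c l : ℕ) (t1 t2 t3 : Tr)

/-- The tag of the root. -/
def Tr.tag : Tr → ℕ
  | .leaf _ l => l
  | .node _ l _ _ _ => l

/-- The opening token. -/
def opn (c l : ℕ) : List Sg := Sg.x :: (rep l .a ++ Sg.d :: rep c .o)

/-- The closing token. -/
def cls (c l : ℕ) : List Sg := rep c .p ++ Sg.e :: (rep l .b ++ [Sg.y])

/-- The word of a tree. -/
def Tr.word : Tr → List Sg
  | .leaf c l => opn c l ++ cls c l
  | .node c l t1 t2 t3 => opn c l ++ (t1.word ++ (t2.word ++ (t3.word ++ cls c l)))

/-- Words with an error between two neighbouring opening tokens. -/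
def E1 (w : List Sg) : Prop := ∃ u v l c m, l ≤ 2 * m ∧
  w = u ++ Sg.x :: (rep l .a ++ Sg.d :: (rep c .o ++ Sg.x :: (rep m .a ++ v)))

/-- Words with an error between two neighbouring closing tokens. -/
def E2 (w : List Sg) : Prop := ∃ u v l c m, l ≤ 2 * m ∧
  w = u ++ (rep m .b ++ Sg.y :: (rep c .p ++ Sg.e :: (rep l .b ++ Sg.y :: v)))

/-- Words with an error between a closing token and an opening token. -/
def E3 (w : List Sg) : Prop := ∃ u v m h, 2 * m + 2 ≤ h ∧
  w = u ++ Sg.e :: (rep m .b ++ Sg.y :: Sg.x :: (rep h .a ++ v))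

/-- The language. -/
def LL : Language Sg := {w | (∃ t : Tr, w = t.word) ∨ E1 w ∨ E2 w ∨ E3 w}

theorem rep_succ (n : ℕ) (s : Sg) : s :: rep n s = rep (n + 1) s := by
  rw [rep, rep, List.replicate_succ]

theorem rep_succ' (n : ℕ) (s : Sg) : rep n s ++ [s] = rep (n + 1) s := by
  rw [rep, rep, List.replicate_succ']

theorem rep_snoc (n : ℕ) (s : Sg) (r : List Sg) : rep n s ++ s :: r = rep (n + 1) s ++ r := by
  rw [← rep_succ' n s, List.append_assoc, List.singleton_append]

end Pool.Agent.K1H73.Qrt
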