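import Pool.Agent.K1H73.QrtLang

set_option linter.unusedVariables false
set_option linter.unusedSimpArgs false

namespace Pool.Agent.K1H73.Qrt

/-- Tokens. -/
inductive Tok
  | op (c l : ℕ)
  | cl (c l : ℕ)

/-- The tag of a token. -/
def Tok.tag : Tok → ℕ
  | .op _ l => l
  | .cl _ l => l

/-- The word of a token. -/
def wd : Tok → List Sg
  | .op c l => opn c l
  | .cl c l => cls c l

/-- The word of a sequence of tokens. -/
def wds : List Tok → List Sg
  | [] => []
  | τ :: t => wd τ ++ wds t

theorem wds_append (t t' : List Tok) : wds (t ++ t') = wds t ++ wds t' := by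
  induction t with
  | nil => rfl
  | cons τ t ih => rw [List.cons_append, wds, wds, ih, List.append_assoc]

/-- The tokens of a tree. -/
def Tr.toks : Tr → List Tok
  | .leaf c l => [.op c l, .cl c l]
  | .node c l t1 t2 t3 => .op c l :: (t1.toks ++ (t2.toks ++ (t3.toks ++ [.cl c l])))

/-- The label of the root. -/
def Tr.lab : Tr → ℕ
  | .leaf c _ => c
  | .node c _ _ _ _ => c

theorem word_eq (t : Tr) : t.word = wds t.toks := by
  induction t with
  | leaf c l => simp [Tr.word, Tr.toks, wds, wd]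
  | node c l t1 t2 t3 ih1 ih2 ih3 =>
    simp [Tr.word, Tr.toks, wds, wds_append, wd, ih1, ih2, ih3]

theorem toks_head (t : Tr) : t.toks.head? = some (.op t.lab t.tag) := by
  cases t <;> rfl

theorem toks_last (t : Tr) : t.toks.getLast? = some (.cl t.lab t.tag) := by
  cases t with
  | leaf c l => rfl
  | node c l t1 t2 t3 =>
    have : Tr.toks (.node c l t1 t2 t3) =
        (Tok.op c l :: (t1.toks ++ (t2.toks ++ t3.toks))) ++ [.cl c l] := by
      simp [Tr.toks]
    rw [this, List.getLast?_append]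
    rfl

/-- Admissible neighbours. -/
def Good : Tok → Tok → Prop
  | .op _ l, .op _ m => 2 * m + 1 ≤ l
  | .op _ _, .cl _ _ => True
  | .cl _ m, .cl _ l => 2 * m + 1 ≤ l
  | .cl _ m, .op _ h => h ≤ 2 * m + 1

theorem rep_inj {z : Sg} : ∀ {c c' : ℕ} {s s' : List Sg}, rep c z ++ s = rep c' z ++ s' →
    s.head? ≠ some z → s'.head? ≠ some z → c = c' ∧ s = s' := by
  intro c
  induction c with
  | zero =>
    intro c' s s' h hs hs'
    cases c' with
    | zero => exact ⟨rfl, h⟩
    | succ c' =>
      have h1 : s = z :: (rep c' z ++ s') := h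
      rw [h1] at hs
      exact absurd rfl hs
  | succ c ih =>
    intro c' s s' h hs hs'
    cases c' with
    | zero =>
      have h1 : z :: (rep c z ++ s) = s' := h
      rw [← h1] at hs'
      exact absurd rfl hs'
    | succ c' =>
      have h1 : z :: (rep c z ++ s) = z :: (rep c' z ++ s') := h
      obtain ⟨rfl, rfl⟩ := ih (List.cons.inj h1).2 hs hs'
      exact ⟨rfl, rfl⟩

theorem rep_le {z : Sg} : ∀ {c c' : ℕ} {s s' : List Sg}, rep c z ++ s = rep c' z ++ s' →
    s'.head? ≠ some z → c ≤ c' := by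
  intro c
  induction c with
  | zero => intro c' s s' h hs'; exact Nat.zero_le _
  | succ c ih =>
    intro c' s s' h hs'
    cases c' with
    | zero =>
      have h1 : z :: (rep c z ++ s) = s' := h
      rw [← h1] at hs'
      exact absurd rfl hs'
    | succ c' =>
      have h1 : z :: (rep c z ++ s) = z :: (rep c' z ++ s') := h
      have := ih (List.cons.inj h1).2 hs'
      omega

theorem rep_inj_r {z : Sg} {c c' : ℕ} {s s' : List Sg} (h : s ++ rep c z = s' ++ rep c' z)
    (hs : s.getLast? ≠ some z) (hs' : s'.getLast? ≠ some z) : c = c' ∧ s = s' := by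
  have h1 := congrArg List.reverse h
  rw [List.reverse_append, List.reverse_append, List.reverse_replicate,
    List.reverse_replicate] at h1
  have h2 := rep_inj h1 (by rwa [List.head?_reverse]) (by rwa [List.head?_reverse])
  exact ⟨h2.1, List.reverse_injective h2.2⟩

theorem rep_le_r {z : Sg} {c c' : ℕ} {s s' : List Sg} (h : s ++ rep c z = s' ++ rep c' z)
    (hs' : s'.getLast? ≠ some z) : c ≤ c' := by
  have h1 := congrArg List.reverse h
  rw [List.reverse_append, List.reverse_append, List.reverse_replicate,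
    List.reverse_replicate] at h1
  exact rep_le h1 (by rwa [List.head?_reverse])

theorem mem_wd_x {τ : Tok} {u s : List Sg} (h : wd τ = u ++ Sg.x :: s) : u = [] := by
  cases τ with
  | op c l =>
    cases u with
    | nil => rfl
    | cons z u =>
      exfalso
      have h1 : Sg.x :: (rep l .a ++ Sg.d :: rep c .o) = z :: (u ++ Sg.x :: s) := h
      have h2 := (List.cons.inj h1).2
      have h3 : Sg.x ∈ rep l .a ++ Sg.d :: rep c .o := by rw [h2]; simp
      simp [List.mem_replicate] at h3
  | cl c l =>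
    exfalso
    have h1 : Sg.x ∈ cls c l := by
      have : cls c l = _ := h
      rw [this]; simp
    simp [cls, List.mem_replicate] at h1

theorem mem_wd_y {τ : Tok} {u s : List Sg} (h : wd τ = u ++ Sg.y :: s) : s = [] := by
  cases τ with
  | op c l =>
    exfalso
    have h1 : Sg.y ∈ opn c l := by
      have : opn c l = _ := h
      rw [this]; simp
    simp [opn, List.mem_replicate] at h1
  | cl c l =>
    rcases List.eq_nil_or_concat s with rfl | ⟨s', z, rfl⟩
    · rfl
    · exfalso
      have h1 : (rep c .p ++ Sg.e :: rep l .b) ++ [Sg.y] = (u ++ Sg.y :: s') ++ [z] := by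
        have : rep c .p ++ Sg.e :: (rep l .b ++ [Sg.y]) = u ++ Sg.y :: (s' ++ [z]) := by
          rw [← List.concat_eq_append (as := s')]
          exact h
        simpa using this
      have h2 := (List.append_inj' h1 rfl).1
      have h3 : Sg.y ∈ rep c .p ++ Sg.e :: rep l .b := by rw [h2]; simp
      simp [List.mem_replicate] at h3

theorem split_x {s : List Sg} : ∀ {t : List Tok} {u : List Sg}, wds t = u ++ Sg.x :: s →
    ∃ t1 t2, t = t1 ++ t2 ∧ wds t1 = u ∧ wds t2 = Sg.x :: s := by
  intro t
  induction t with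
  | nil =>
    intro u h
    have : ([] : List Sg) = u ++ Sg.x :: s := h
    simp at this
  | cons τ t ih =>
    intro u h
    have h' : wd τ ++ wds t = u ++ Sg.x :: s := h
    rcases List.append_eq_append_iff.mp h' with ⟨a', h1, h2⟩ | ⟨c', h1, h2⟩
    · obtain ⟨t1, t2, rfl, h3, h4⟩ := ih h2
      exact ⟨τ :: t1, t2, rfl, by rw [wds, h3, h1], h4⟩
    · cases c' with
      | nil => exact ⟨[τ], t, rfl, by simpa [wds] using h1, by simpa using h2.symm⟩
      | cons z c'' =>
        have hz : z = Sg.x := (List.cons.inj h2).1.symm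
        subst hz
        have hu := mem_wd_x h1
        subst hu
        exact ⟨[], τ :: t, rfl, rfl, h⟩

theorem split_y {s : List Sg} : ∀ {t : List Tok} {u : List Sg}, wds t = u ++ Sg.y :: s →
    ∃ t1 t2, t = t1 ++ t2 ∧ wds t1 = u ++ [Sg.y] ∧ wds t2 = s := by
  intro t
  induction t with
  | nil =>
    intro u h
    have : ([] : List Sg) = u ++ Sg.y :: s := h
    simp at this
  | cons τ t ih =>
    intro u h
    have h' : wd τ ++ wds t = u ++ Sg.y :: s := h
    rcases List.append_eq_append_iff.mp h' with ⟨a', h1, h2⟩ | ⟨c', h1, h2⟩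
    · obtain ⟨t1, t2, rfl, h3, h4⟩ := ih h2
      exact ⟨τ :: t1, t2, rfl, by rw [wds, h3, h1, List.append_assoc], h4⟩
    · cases c' with
      | nil =>
        obtain ⟨t1, t2, rfl, h3, h4⟩ := ih (u := []) (by simpa using h2.symm)
        refine ⟨τ :: t1, t2, rfl, ?_, h4⟩
        rw [wds, h3, h1]
        simp
      | cons z c'' =>
        obtain ⟨hz, h3⟩ := List.cons.inj h2
        subst hz
        have hs := mem_wd_y h1
        subst hs
        exact ⟨[τ], t, rfl, by simpa [wds] using h1, by simpa using h3.symm⟩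

theorem wds_head (t : List Tok) : (wds t).head? ≠ some .o ∧ (wds t).head? ≠ some .a := by
  cases t with
  | nil => simp [wds]
  | cons τ t =>
    cases τ with
    | op c l => simp [wds, wd, opn]
    | cl c l => cases c <;> simp [wds, wd, cls, List.replicate_succ]

theorem first_x {t : List Tok} {s : List Sg} (h : wds t = Sg.x :: s) :
    ∃ c l t', t = .op c l :: t' := by
  cases t with
  | nil => simp [wds] at h
  | cons τ t =>
    cases τ with
    | op c l => exact ⟨c, l, t, rfl⟩
    | cl c l => cases c <;> simp [wds, wd, cls, List.replicate_succ] at h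

theorem first_p {t : List Tok} {c : ℕ} {s : List Sg} (h : wds t = rep c .p ++ Sg.e :: s) :
    ∃ c l t', t = .cl c l :: t' := by
  cases t with
  | nil => simp [wds] at h
  | cons τ t =>
    cases τ with
    | op c' l => cases c <;> simp [wds, wd, opn, List.replicate_succ] at h
    | cl c' l => exact ⟨c', l, t, rfl⟩

theorem last_y {t : List Tok} {u : List Sg} (h : wds t = u ++ [Sg.y]) :
    ∃ t' c l, t = t' ++ [.cl c l] := by
  rcases List.eq_nil_or_concat t with rfl | ⟨t', τ, rfl⟩
  · simp [wds] at h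
  · cases τ with
    | op c l =>
      exfalso
      rw [List.concat_eq_append, wds_append] at h
      have h0 : wds [Tok.op c l] = Sg.x :: (rep l .a ++ Sg.d :: rep c .o) := by
        simp [wds, wd, opn]
      rw [h0] at h
      have h1 := congrArg List.getLast? h
      cases c with
      | zero =>
        have h2 : wds t' ++ Sg.x :: (rep l .a ++ Sg.d :: rep 0 .o) =
          (wds t' ++ Sg.x :: rep l .a) ++ [Sg.d] := by simp
        rw [h2, List.getLast?_concat, List.getLast?_concat] at h1
        simp at h1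
      | succ c =>
        have h2 : wds t' ++ Sg.x :: (rep l .a ++ Sg.d :: rep (c + 1) .o) =
          (wds t' ++ Sg.x :: (rep l .a ++ Sg.d :: rep c .o)) ++ [Sg.o] := by
          rw [← rep_succ' c]
          simp
        rw [h2, List.getLast?_concat, List.getLast?_concat] at h1
        simp at h1
    | cl c l => exact ⟨t', c, l, by rw [List.concat_eq_append]⟩

theorem good_of_chain {t1 t2 : List Tok} {τ1 τ2 : Tok}
    (h : List.IsChain Good ((t1 ++ [τ1]) ++ (τ2 :: t2))) : Good τ1 τ2 := by
  rw [List.isChain_append] at h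
  exact h.2.2 τ1 (by simp) τ2 (by simp)

theorem no_E1 {t : List Tok} (h : t.IsChain Good) : ¬ E1 (wds t) := by
  rintro ⟨u, v, l, c, m, hlm, hw⟩
  have hw' : wds t = (u ++ Sg.x :: (rep l .a ++ Sg.d :: rep c .o)) ++ Sg.x :: (rep m .a ++ v) := by
    rw [hw]; simp
  obtain ⟨t1, t2, rfl, h1, h2⟩ := split_x hw'
  obtain ⟨t3, t4, rfl, h3, h4⟩ := split_x h1
  obtain ⟨c', m', t5, rfl⟩ := first_x h2
  obtain ⟨c'', l', t6, rfl⟩ := first_x h4
  have h5 : rep l' .a ++ Sg.d :: (rep c'' .o ++ wds t6) = rep l .a ++ Sg.d :: rep c .o := by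
    have : Sg.x :: (rep l' .a ++ Sg.d :: (rep c'' .o ++ wds t6)) =
        Sg.x :: (rep l .a ++ Sg.d :: rep c .o) := by
      rw [← h4]; simp [wds, wd, opn]
    exact (List.cons.inj this).2
  obtain ⟨rfl, h6⟩ := rep_inj h5 (by simp) (by simp)
  have h7 : rep c'' .o ++ wds t6 = rep c .o ++ [] := by simpa using (List.cons.inj h6).2
  obtain ⟨rfl, h8⟩ := rep_inj h7 (wds_head t6).1 (by simp)
  have h9 : t6 = [] := by
    cases t6 with
    | nil => rfl
    | cons τ t6 => cases τ <;> simp [wds, wd, opn, cls] at h8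
  subst h9
  have h10 : rep m .a ++ v = rep m' .a ++ Sg.d :: (rep c' .o ++ wds t5) := by
    have : Sg.x :: (rep m .a ++ v) = Sg.x :: (rep m' .a ++ Sg.d :: (rep c' .o ++ wds t5)) := by
      rw [← h2]; simp [wds, wd, opn]
    exact (List.cons.inj this).2
  have h11 := rep_le h10 (by simp)
  have h12 : Good (.op c'' l') (.op c' m') := good_of_chain h
  have h13 : 2 * m' + 1 ≤ l' := h12
  omega

theorem no_E2 {t : List Tok} (h : t.IsChain Good) : ¬ E2 (wds t) := by
  rintro ⟨u, v, l, c, m, hlm, hw⟩
  have hw' : wds t = (u ++ rep m .b) ++ Sg.y :: (rep c .p ++ Sg.e :: (rep l .b ++ Sg.y :: v)) := by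
    rw [hw]; simp
  obtain ⟨t1, t2, rfl, h1, h2⟩ := split_y hw'
  obtain ⟨c', l', t4, rfl⟩ := first_p h2
  obtain ⟨t3, c'', m', rfl⟩ := last_y h1
  have h3 : rep c' .p ++ Sg.e :: (rep l' .b ++ Sg.y :: wds t4) =
      rep c .p ++ Sg.e :: (rep l .b ++ Sg.y :: v) := by
    rw [← h2]; simp [wds, wd, cls]
  obtain ⟨rfl, h4⟩ := rep_inj h3 (by simp) (by simp)
  obtain ⟨rfl, h5⟩ := rep_inj (List.cons.inj h4).2 (by simp) (by simp)
  have h6 : (u ++ rep m .b) ++ [Sg.y] =
      ((wds t3 ++ (rep c'' .p ++ [Sg.e])) ++ rep m' .b) ++ [Sg.y] := by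
    rw [← h1, wds_append]; simp [wds, wd, cls]
  have h7 := rep_le_r (List.append_inj' h6 rfl).1 (by simp)
  have h8 : Good (.cl c'' m') (.cl c' l') := good_of_chain h
  have h9 : 2 * m' + 1 ≤ l' := h8
  omega

theorem no_E3 {t : List Tok} (h : t.IsChain Good) : ¬ E3 (wds t) := by
  rintro ⟨u, v, m, h', hlm, hw⟩
  have hw' : wds t = (u ++ Sg.e :: rep m .b) ++ Sg.y :: (Sg.x :: (rep h' .a ++ v)) := by
    rw [hw]; simp
  obtain ⟨t1, t2, rfl, h1, h2⟩ := split_y hw'
  obtain ⟨c', l', t4, rfl⟩ := first_x h2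
  obtain ⟨t3, c'', m', rfl⟩ := last_y h1
  have h10 : rep h' .a ++ v = rep l' .a ++ Sg.d :: (rep c' .o ++ wds t4) := by
    have : Sg.x :: (rep h' .a ++ v) = Sg.x :: (rep l' .a ++ Sg.d :: (rep c' .o ++ wds t4)) := by
      rw [← h2]; simp [wds, wd, opn]
    exact (List.cons.inj this).2
  have h11 := rep_le h10 (by simp)
  have h6 : ((u ++ [Sg.e]) ++ rep m .b) ++ [Sg.y] =
      ((wds t3 ++ (rep c'' .p ++ [Sg.e])) ++ rep m' .b) ++ [Sg.y] := by
    have h0 : ((u ++ [Sg.e]) ++ rep m .b) ++ [Sg.y] = (u ++ Sg.e :: rep m .b) ++ [Sg.y] := by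
      simp
    rw [h0, ← h1, wds_append]; simp [wds, wd, cls]
  obtain ⟨rfl, h7⟩ := rep_inj_r (List.append_inj' h6 rfl).1 (by simp) (by simp)
  have h8 : Good (.cl c'' m) (.op c' l') := good_of_chain h
  have h9 : l' ≤ 2 * m + 1 := h8
  omega

theorem wds_inj : ∀ {t t' : List Tok}, wds t = wds t' → t = t' := by
  intro t
  induction t with
  | nil =>
    intro t' h
    cases t' with
    | nil => rfl
    | cons τ t' => cases τ <;> simp [wds, wd, opn, cls] at h
  | cons τ t ih =>
    intro t' h
    cases t' with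
    | nil => cases τ <;> simp [wds, wd, opn, cls] at h
    | cons τ' t' =>
      cases τ with
      | op c l =>
        cases τ' with
        | op c' l' =>
          have h1 : rep l .a ++ Sg.d :: (rep c .o ++ wds t) =
              rep l' .a ++ Sg.d :: (rep c' .o ++ wds t') := by
            simpa [wds, wd, opn] using h
          obtain ⟨rfl, h2⟩ := rep_inj h1 (by simp) (by simp)
          obtain ⟨rfl, h3⟩ := rep_inj (List.cons.inj h2).2 (wds_head t).1 (wds_head t').1
          rw [ih h3]
        | cl c' l' => cases c' <;> simp [wds, wd, opn, cls, List.replicate_succ] at h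
      | cl c l =>
        cases τ' with
        | op c' l' => cases c <;> simp [wds, wd, opn, cls, List.replicate_succ] at h
        | cl c' l' =>
          have h1 : rep c .p ++ Sg.e :: (rep l .b ++ Sg.y :: wds t) =
              rep c' .p ++ Sg.e :: (rep l' .b ++ Sg.y :: wds t') := by
            simpa [wds, wd, cls] using h
          obtain ⟨rfl, h2⟩ := rep_inj h1 (by simp) (by simp)
          obtain ⟨rfl, h3⟩ := rep_inj (List.cons.inj h2).2 (by simp) (by simp)
          rw [ih (List.cons.inj h3).2]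

/-- The words of well-formed token sequences in the language. -/
theorem wds_mem {t : List Tok} (h : t.IsChain Good) : wds t ∈ LL ↔ ∃ T : Tr, t = T.toks := by
  constructor
  · rintro (⟨T, hT⟩ | hE | hE | hE)
    · rw [word_eq] at hT
      exact ⟨T, wds_inj hT⟩
    · exact absurd hE (no_E1 h)
    · exact absurd hE (no_E2 h)
    · exact absurd hE (no_E3 h)
  · rintro ⟨T, rfl⟩
    exact Or.inl ⟨T, (word_eq T).symm⟩

theorem chain_node {c l : ℕ} {t1 t2 t3 : Tr}
    (h : (Tr.node c l t1 t2 t3).toks.IsChain Good) :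
    t1.toks.IsChain Good ∧ t2.toks.IsChain Good ∧ t3.toks.IsChain Good ∧
    2 * t1.tag + 1 ≤ l ∧ t2.tag ≤ 2 * t1.tag + 1 ∧ 2 * t3.tag + 1 ≤ l := by
  have h' : List.IsChain Good ([Tok.op c l] ++ (t1.toks ++ (t2.toks ++ (t3.toks ++ [.cl c l])))) :=
    h
  rw [List.isChain_append] at h'
  obtain ⟨_, h1, h1'⟩ := h'
  rw [List.isChain_append] at h1
  obtain ⟨h2, h3, h3'⟩ := h1
  rw [List.isChain_append] at h3
  obtain ⟨h4, h5, h5'⟩ := h3
  rw [List.isChain_append] at h5
  obtain ⟨h6, _, h7'⟩ := h5
  refine ⟨h2, h4, h6, ?_, ?_, ?_⟩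
  · exact h1' (.op c l) (by simp) (.op t1.lab t1.tag) (by simp [List.head?_append, toks_head])
  · exact h3' (.cl t1.lab t1.tag) (by simp [toks_last]) (.op t2.lab t2.tag)
      (by simp [List.head?_append, toks_head])
  · exact h7' (.cl t3.lab t3.tag) (by simp [toks_last]) (.cl c l) (by simp)

theorem mono {T : Tr} (h : T.toks.IsChain Good) : ∀ τ ∈ T.toks, τ.tag ≤ T.tag := by
  induction T with
  | leaf c l =>
    intro τ hτ
    simp [Tr.toks] at hτ
    rcases hτ with rfl | rfl <;> exact le_refl _
  | node c l t1 t2 t3 ih1 ih2 ih3 =>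
    obtain ⟨h1, h2, h3, h4, h5, h6⟩ := chain_node h
    intro τ hτ
    have hl : (Tr.node c l t1 t2 t3).tag = l := rfl
    rw [hl]
    simp only [Tr.toks, List.mem_cons, List.mem_append, List.not_mem_nil, or_false] at hτ
    rcases hτ with rfl | hτ | hτ | hτ | rfl
    · exact le_refl _
    · have := ih1 h1 τ hτ; omega
    · have := ih2 h2 τ hτ; omega
    · have := ih3 h3 τ hτ; omega
    · exact le_refl _

end Pool.Agent.K1H73.Qrt
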